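import Mathlib
import Pool.Agent.Y14.Sort
import Pool.Agent.Y15.PotF

/-!
# Transports along different paths are close, with the perimeter bound for the rectangles
-/

open MeasureTheory Matrix Filter
open scoped Matrix.Norms.Frobenius Topology
open Pool.Agent.H906R3.YM hiding Pl
open Pool.Agent.W793.YM Pool.Agent.TH618.YM Pool.Agent.Y14

namespace Pool.Agent.Q206.YM

set_option linter.unusedSectionVars false
set_option linter.unusedVariables false

noncomputable section

variable {G : Type*} [Group G] [TopologicalSpace G] [IsTopologicalGroup G] [CompactSpace G]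
  [SecondCountableTopology G] [MeasurableSpace G] [BorelSpace G] (μ : Measure G)
  [IsProbabilityMeasure μ] [μ.IsMulLeftInvariant] [μ.IsMulRightInvariant] [μ.IsInvInvariant]
  {N n : ℕ} {L : LD G N n} {d m : ℕ} [NeZero m] {β : ℝ}

variable (L) in
/-- `u` bounds the deviation of the rectangles of sides at most `ρ` -/
def RB (d m : ℕ) [NeZero m] (β : ℝ) (ρ : ℕ) (u : ℝ) : Prop :=
  ∀ i j : Fin d, i ≠ j → ∀ a b : ℕ, a ≤ ρ → b ≤ ρ → Y15.uu μ L m β i j a b ≤ u

/-- the size of the deviation of a rectangle -/
lemma rect_uu (hN : 1 ≤ N) (x : Fin d → ZMod (2 * m)) (i j : Fin d) (a b : ℕ) :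
    en μ L β (fun U : Ed d (2 * m) → G => dv L (rect U x i j a b)) =
      Y15.uu μ L m β i j a b := by
  have h0 : EX μ L β (fun U : Ed d (2 * m) → G => dv L (rect U x i j a b) ^ 2) =
      EX μ L β (fun U : Ed d (2 * m) → G => dv L (rect U 0 i j a b) ^ 2) := by
    rw [← EX_tr μ x (fun U : Ed d (2 * m) → G => dv L (rect U 0 i j a b) ^ 2)]
    simp only [rect_tr, zero_add]
  unfold en Y15.uu
  rw [h0, EX_dv_rect μ hN]

lemma RB.rect {ρ : ℕ} {u : ℝ} (h : RB μ L d m β ρ u) (hN : 1 ≤ N) {i j : Fin d} (hij : i ≠ j)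
    (x : Fin d → ZMod (2 * m)) {a b : ℕ} (ha : a ≤ ρ) (hb : b ≤ ρ) :
    en μ L β (fun U : Ed d (2 * m) → G => dv L (rect U x i j a b)) ≤ u := by
  rw [rect_uu μ hN]
  exact h i j hij a b ha hb

lemma RB.mono {ρ ρ' : ℕ} {u u' : ℝ} (h : RB μ L d m β ρ u) (hρ : ρ' ≤ ρ) (hu : u ≤ u') :
    RB μ L d m β ρ' u' := fun i j hij a b ha hb =>
  (h i j hij a b (ha.trans hρ) (hb.trans hρ)).trans hu

/-- the perimeter bound -/
theorem RB_of (hN : 1 ≤ N) (hd : 3 ≤ d) (hβ : 3 ≤ β) (hm : 2 ≤ m) {ρ : ℕ}
    (hρβ : 3 * (ρ : ℝ) ≤ β) (hρm : ρ ≤ m) :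
    RB μ L d m β ρ (Y15.cA N * Real.log β * Real.sqrt (ρ / β)) := by
  have hβ0 : 0 < β := by linarith
  have hl : 0 ≤ Real.log β := Real.log_nonneg (by linarith)
  have hc : 0 ≤ Y15.cA N := (Y15.cA_pos hN).le
  have hR0 : 0 ≤ Y15.cA N * Real.log β * Real.sqrt (ρ / β) := by positivity
  have key : ∀ (i j : Fin d), i ≠ j → ∀ a b : ℕ, 1 ≤ b → b ≤ a → a ≤ ρ →
      Y15.uu μ L m β i j a b ≤ Y15.cA N * Real.log β * Real.sqrt (ρ / β) := by
    intro i j hij a b h1 h2 h3
    have haR : (a : ℝ) ≤ ρ := by exact_mod_cast h3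
    refine (Y15.tor_low μ (L := L) hN hd hβ m hm hij a b h1 h2 (by linarith)
      (h3.trans hρm)).trans ?_
    refine mul_le_mul_of_nonneg_left ?_ (by positivity)
    exact Real.sqrt_le_sqrt (div_le_div_of_nonneg_right haR hβ0.le)
  intro i j hij a b ha hb
  rcases Nat.eq_zero_or_pos a with h1 | h1
  · rw [h1, Y15.uu_zero μ hN]; exact hR0
  rcases Nat.eq_zero_or_pos b with h2 | h2
  · rw [h2, Y15.uu_zero' μ hN]; exact hR0
  rcases Nat.le_total b a with h3 | h3
  · exact key i j hij a b h2 h3 ha
  · rw [Y15.uu_swap]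
    exact key j i hij.symm b a h1 h3 hb

lemma swap_en (hN : 1 ≤ N) {ρ : ℕ} {u : ℝ} (h : RB μ L d m β ρ u) {i j : Fin d} (hij : i ≠ j)
    (x : Fin d → ZMod (2 * m)) {a b : ℕ} (ha : a ≤ ρ) (hb : b ≤ ρ) :
    en μ L β (fun U => dd L (tp eT U x (List.replicate a i ++ List.replicate b j))
      (tp eT U x (List.replicate b j ++ List.replicate a i))) ≤ u := by
  simp only [dd_swap]
  exact h.rect μ hN hij x ha hb

lemma move_en (hN : 1 ≤ N) {i : Fin d} {ρ nn : ℕ} {u : ℝ} (h : RB μ L d m β ρ u)
    (hn : nn ≤ ρ) {v : Fin d → ℕ} (hv : ∀ k, v k ≤ ρ) {K : List (Fin d)} (hi : i ∉ K)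
    (x : Fin d → ZMod (2 * m)) :
    en μ L β (fun U => dd L (tp eT U x (cmb v K ++ List.replicate nn i))
      (tp eT U x (List.replicate nn i ++ cmb v K))) ≤ K.length * u := by
  induction K generalizing x with
  | nil =>
    simp only [cmb, List.nil_append, List.append_nil, dd_self, en_zero, List.length_nil,
      Nat.cast_zero, zero_mul, le_refl]
  | cons k K ih =>
    have hik : i ≠ k := fun h => hi (h ▸ List.mem_cons_self)
    have hiK : i ∉ K := fun h => hi (List.mem_cons_of_mem _ h)
    have e1 : cmb v (k :: K) ++ List.replicate nn i =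
        List.replicate (v k) k ++ (cmb v K ++ List.replicate nn i) := by
      rw [cmb_cons, List.append_assoc]
    have e2 : List.replicate nn i ++ cmb v (k :: K) =
        (List.replicate nn i ++ List.replicate (v k) k) ++ cmb v K := by
      rw [cmb_cons, List.append_assoc]
    have e3 : List.replicate (v k) k ++ (List.replicate nn i ++ cmb v K) =
        (List.replicate (v k) k ++ List.replicate nn i) ++ cmb v K := by
      rw [List.append_assoc]
    have t := en_tri μ (L := L) (β := β)
      (tp_cont (u := eT) x (List.replicate (v k) k ++ (cmb v K ++ List.replicate nn i)))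
      (tp_cont (G := G) (u := eT) x
        (List.replicate (v k) k ++ (List.replicate nn i ++ cmb v K)))
      (tp_cont (u := eT) x ((List.replicate nn i ++ List.replicate (v k) k) ++ cmb v K))
    rw [e1, e2]
    refine t.trans ?_
    have s1 : (fun U : Ed d (2 * m) → G => dd L
        (tp eT U x (List.replicate (v k) k ++ (cmb v K ++ List.replicate nn i)))
        (tp eT U x (List.replicate (v k) k ++ (List.replicate nn i ++ cmb v K)))) =
        fun U => dd L (tp eT U (x + dsp eT (List.replicate (v k) k))
          (cmb v K ++ List.replicate nn i))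
        (tp eT U (x + dsp eT (List.replicate (v k) k)) (List.replicate nn i ++ cmb v K)) := by
      funext U
      rw [tp_append x (List.replicate (v k) k), tp_append x (List.replicate (v k) k), dd_lmul]
    have s2 : (fun U : Ed d (2 * m) → G => dd L
        (tp eT U x (List.replicate (v k) k ++ (List.replicate nn i ++ cmb v K)))
        (tp eT U x ((List.replicate nn i ++ List.replicate (v k) k) ++ cmb v K))) =
        fun U => dd L (tp eT U x (List.replicate (v k) k ++ List.replicate nn i))
        (tp eT U x (List.replicate nn i ++ List.replicate (v k) k)) := by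
      funext U
      have hd : (dsp eT (List.replicate (v k) k ++ List.replicate nn i) :
          Fin d → ZMod (2 * m)) = dsp eT (List.replicate nn i ++ List.replicate (v k) k) := by
        rw [dsp_append, dsp_append, add_comm]
      rw [e3, tp_append x _ (cmb v K), tp_append x _ (cmb v K), hd, dd_rmul]
    rw [s1, s2]
    have h1 := ih hiK (x + dsp eT (List.replicate (v k) k))
    have h2 := swap_en μ (L := L) hN h hik.symm x (a := v k) (b := nn) (hv k) hn
    rw [List.length_cons]
    push_cast
    linarith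

lemma ins_en (hN : 1 ≤ N) {i : Fin d} {ρ nn : ℕ} {u : ℝ} (hu : 0 ≤ u) (h : RB μ L d m β ρ u)
    (hn : nn ≤ ρ) {v : Fin d → ℕ} (hv : ∀ k, v k ≤ ρ) {K : List (Fin d)} (hK : K.Nodup)
    (hi : i ∈ K) (x : Fin d → ZMod (2 * m)) :
    en μ L β (fun U => dd L (tp eT U x (cmb v K ++ List.replicate nn i))
      (tp eT U x (cmb (fun k => v k + if k = i then nn else 0) K))) ≤ K.length * u := by
  induction K generalizing x with
  | nil => simp at hi
  | cons k K ih =>
    have hk := List.nodup_cons.1 hK
    by_cases hki : k = i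
    · subst hki
      have e2 : cmb (fun k' => v k' + if k' = k then nn else 0) (k :: K) =
          List.replicate (v k) k ++ (List.replicate nn k ++ cmb v K) := by
        rw [cmb_cons, if_pos rfl, ← List.replicate_append_replicate, List.append_assoc]
        congr 2
        refine cmb_congr fun k' hk' => ?_
        have : k' ≠ k := fun h => hk.1 (h ▸ hk')
        simp [this]
      have s1 : (fun U : Ed d (2 * m) → G => dd L
          (tp eT U x (cmb v (k :: K) ++ List.replicate nn k))
          (tp eT U x (cmb (fun k' => v k' + if k' = k then nn else 0) (k :: K)))) =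
          fun U => dd L (tp eT U (x + dsp eT (List.replicate (v k) k))
            (cmb v K ++ List.replicate nn k))
          (tp eT U (x + dsp eT (List.replicate (v k) k)) (List.replicate nn k ++ cmb v K)) := by
        funext U
        rw [e2, cmb_cons, List.append_assoc, tp_append x (List.replicate (v k) k),
          tp_append x (List.replicate (v k) k), dd_lmul]
      rw [s1]
      refine (move_en μ hN h hn hv hk.1 _).trans ?_
      rw [List.length_cons]
      push_cast
      linarith
    · have hiK : i ∈ K := by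
        rcases List.mem_cons.1 hi with h | h
        · exact absurd h.symm hki
        · exact h
      have s1 : (fun U : Ed d (2 * m) → G => dd L
          (tp eT U x (cmb v (k :: K) ++ List.replicate nn i))
          (tp eT U x (cmb (fun k' => v k' + if k' = i then nn else 0) (k :: K)))) =
          fun U => dd L (tp eT U (x + dsp eT (List.replicate (v k) k))
            (cmb v K ++ List.replicate nn i))
          (tp eT U (x + dsp eT (List.replicate (v k) k))
            (cmb (fun k' => v k' + if k' = i then nn else 0) K)) := by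
        funext U
        rw [cmb_cons, cmb_cons, if_neg hki, add_zero, List.append_assoc,
          tp_append x (List.replicate (v k) k), tp_append x (List.replicate (v k) k), dd_lmul]
      rw [s1]
      refine (ih hk.2 hiK _).trans ?_
      rw [List.length_cons]
      push_cast
      linarith

lemma Srt_rep (hN : 1 ≤ N) {ρ nn : ℕ} {u : ℝ} (hu : 0 ≤ u) (hR : RB μ L d m β ρ u)
    (hn : nn ≤ ρ) {x : Fin d → ZMod (2 * m)} {w : List (Fin d)} {v : Fin d → ℕ} {b : ℝ}
    (hv : ∀ k, v k ≤ ρ) (h : Srt μ L β x w v b) (i : Fin d) :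
    Srt μ L β x (w ++ List.replicate nn i) (fun k => v k + if k = i then nn else 0)
      (b + d * u) := by
  obtain ⟨h1, h2⟩ := h
  have hdc : (dsp eT (cb v) : Fin d → ZMod (2 * m)) = ct (2 * m) v := by
    rw [dsp_cb, sum_eT]
  refine ⟨?_, ?_⟩
  · rw [dsp_append, h1, dsp_rep, ct_addv v fun k => if k = i then nn else 0]
    congr 1
    funext k
    by_cases hk : k = i
    · subst hk; simp [eT, ct]
    · simp [eT, ct, hk]
  · refine (en_tri μ (tp_cont _ _) (tp_cont (u := eT) x (cb v ++ List.replicate nn i))
      (tp_cont _ _)).trans ?_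
    have s1 : (fun U : Ed d (2 * m) → G => dd L (tp eT U x (w ++ List.replicate nn i))
        (tp eT U x (cb v ++ List.replicate nn i))) =
        fun U => dd L (tp eT U x w) (tp eT U x (cb v)) := by
      funext U
      rw [tp_append, tp_append, h1, hdc, dd_rmul]
    rw [s1]
    have h3 := ins_en μ (L := L) hN hu hR hn hv (List.nodup_finRange d) (List.mem_finRange i) x
    rw [List.length_finRange] at h3
    exact add_le_add h2 h3

lemma Srt_cmb (hN : 1 ≤ N) {ρ : ℕ} {u : ℝ} (hu : 0 ≤ u) (hR : RB μ L d m β ρ u)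
    {x : Fin d → ZMod (2 * m)} {w : List (Fin d)} {v v' : Fin d → ℕ} {b : ℝ}
    (hv0 : ∀ k, v k ≤ ρ) {K : List (Fin d)} (hv : ∀ k ∈ K, v k + v' k ≤ ρ)
    (h : Srt μ L β x w v b) (hK : K.Nodup) :
    Srt μ L β x (w ++ Y14.cmb v' K) (fun k => v k + if k ∈ K then v' k else 0)
      (b + K.length * (d * u)) := by
  induction K generalizing w v b with
  | nil =>
    simpa [Y14.cmb] using h
  | cons k K ih =>
    have hk := List.nodup_cons.1 hK
    have hvk := hv k List.mem_cons_self
    have h1 := Srt_rep μ hN hu hR (nn := v' k) (by omega) hv0 h k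
    have h2 := ih (v := fun k' => v k' + if k' = k then v' k else 0)
      (w := w ++ List.replicate (v' k) k) (b := b + d * u)
      (fun k' => by
        by_cases hkk : k' = k
        · subst hkk; simpa using hvk
        · simpa [hkk] using hv0 k')
      (fun k' hk' => by
        have hkk : k' ≠ k := fun h => hk.1 (h ▸ hk')
        simpa [hkk] using hv k' (List.mem_cons_of_mem _ hk')) h1 hk.2
    rw [cmb_cons, ← List.append_assoc]
    refine h2.mono μ (fun k' => ?_) (le_of_eq ?_)
    · by_cases hkk : k' = k
      · subst hkk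
        simp [hk.1]
      · simp [hkk]
    · rw [List.length_cons]
      push_cast; ring

lemma Srt_cb (hN : 1 ≤ N) {ρ : ℕ} {u : ℝ} (hu : 0 ≤ u) (hR : RB μ L d m β ρ u)
    {x : Fin d → ZMod (2 * m)} {w : List (Fin d)} {v v' : Fin d → ℕ} {b : ℝ}
    (hv : ∀ k, v k + v' k ≤ ρ) (h : Srt μ L β x w v b) :
    Srt μ L β x (w ++ Y14.cb v') (fun k => v k + v' k) (b + d * (d * u)) := by
  have h1 := Srt_cmb μ hN hu hR (v' := v') (fun k => by have := hv k; omega)
    (K := List.finRange d) (fun k _ => hv k) h (List.nodup_finRange d)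
  refine h1.mono μ (fun k => by simp) ?_
  rw [List.length_finRange]

end

end Pool.Agent.Q206.YM
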