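import Mathlib
import Pool.Agent.Y14.Dif3
import Pool.Agent.Q206.YM.Sort

/-!
# The variation of the observable under time shifts, with the perimeter bound
-/

open MeasureTheory Matrix Filter
open scoped Matrix.Norms.Frobenius Topology
open Pool.Agent.H906R3.YM hiding Pl
open Pool.Agent.W793.YM Pool.Agent.TH618.YM Pool.Agent.Y14

namespace Pool.Agent.Q206.YM

set_option linter.unusedSectionVars false
set_option linter.unusedVariables false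

noncomputable section

variable {G : Type*} [Group G] [TopologicalSpace G] [IsTopologicalGroup G] [CompactSpace G]
  [SecondCountableTopology G] [MeasurableSpace G] [BorelSpace G] (μ : Measure G)
  [IsProbabilityMeasure μ] [μ.IsMulLeftInvariant] [μ.IsMulRightInvariant] [μ.IsInvInvariant]
  {N n : ℕ} {L : LD G N n} {e m : ℕ} [NeZero m] {q : ℕ} {β : ℝ}

/-- the constant of the bound -/
def CF (e N : ℕ) : ℝ := 980 * N ^ 2 * (e + 3) + 8400 * N ^ 3 * (e + 3) ^ 2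

lemma CF_pos (hN : 1 ≤ N) : 0 < CF e N := by
  have : (1 : ℝ) ≤ N := by exact_mod_cast hN
  unfold CF; positivity

lemma dv_sq_le (hN : 1 ≤ N) {u : ℝ} (hu : 0 ≤ u) {ρ : ℕ} (hR : RB μ L (e + 3) m β ρ u)
    {i j : Fin (e + 3)} (hij : i ≠ j) (x : Fin (e + 3) → ZMod (2 * m)) {a b : ℕ} (ha : a ≤ ρ)
    (hb : b ≤ ρ) :
    EX μ L β (fun U : Ed (e + 3) (2 * m) → G => dv L (rect U x i j a b) ^ 2) ≤ u ^ 2 := by
  have h1 := hR.rect μ hN hij x ha hb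
  have h2 := pow_le_pow_left₀ (en_nonneg μ _) h1 2
  refine le_trans (le_of_eq ?_) h2
  unfold en
  rw [Real.sq_sqrt]
  exact EX_nonneg μ fun U => sq_nonneg _

lemma EX_HbR (hm : 2 ≤ m) (hN : 1 ≤ N) (hβ : 0 < β) (hq : 1 ≤ q) {κ u : ℝ} (hu : 0 ≤ u)
    (hκ : 1 ≤ κ) (hR : RB μ L (e + 3) m β (5 * q) u) (hu2 : u ^ 2 ≤ κ ^ 2 * (5 * (q / β)))
    (hqβ : κ ^ 2 * (q : ℝ) ^ (e + 2) ≤ β) :
    EX μ L β (fun U : Ed (e + 3) (2 * m) → G => Hb L e q β U) ≤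
      CF e N * (q / (β * (q : ℝ) ^ (e + 1))) := by
  have hq1 : (1 : ℝ) ≤ q := by exact_mod_cast hq
  have hq0 : (0 : ℝ) < q := by linarith
  have hN0 : (0 : ℝ) ≤ N := Nat.cast_nonneg N
  obtain ⟨M, hM⟩ : ∃ M : ℝ, M = (Fintype.card (OO e q) : ℝ) := ⟨_, rfl⟩
  have hM0 : 0 < M := by rw [hM]; exact card_pos hq
  have hMq : M = (q : ℝ) ^ e * (q : ℝ) ^ 4 := by
    rw [hM, card_OO]; push_cast; ring
  obtain ⟨σ, hσ⟩ : ∃ σ : ℝ, σ = 2 * N * (1 / β) := ⟨_, rfl⟩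
  obtain ⟨ℓ, hℓ⟩ : ∃ ℓ : ℝ, ℓ = ((5 * (e + 3) * q : ℕ) : ℝ) := ⟨_, rfl⟩
  have hσ0 : 0 ≤ σ := by rw [hσ]; positivity
  have hℓ0 : 0 ≤ ℓ := by rw [hℓ]; positivity
  have hS : EX μ L β (fun U : Ed (e + 3) (2 * m) → G =>
      ∑ o : OO e q, dv L (rect U (yR m o) 0 1 (rr o) (rv o)) ^ 2) ≤
      M * (κ ^ 2 * (5 * (q / β))) := by
    rw [EX_fsum μ Finset.univ fun o => dvr_cont o]
    calc _ ≤ ∑ _o : OO e q, κ ^ 2 * (5 * (q / β)) := by
          refine Finset.sum_le_sum fun o _ => ?_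
          have h1 := rr_le o
          have h2 : rv o ≤ 3 * q := by
            unfold rv
            have := o.2.2.1.2
            omega
          exact (dv_sq_le μ (L := L) hN hu hR (Ne.symm one_ne) (yR m o)
            (by omega) (by omega)).trans hu2
      _ = _ := by rw [Finset.sum_const, Finset.card_univ, nsmul_eq_mul, hM]
  have cS : Continuous fun U : Ed (e + 3) (2 * m) → G =>
      ∑ o : OO e q, dv L (rect U (yR m o) 0 1 (rr o) (rv o)) ^ 2 :=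
    continuous_finsetSum _ fun o _ => dvr_cont o
  have e1 : (fun U : Ed (e + 3) (2 * m) → G => Hb L e q β U) = fun U =>
      (M⁻¹ ^ 2 * (14 * (M * (σ * N * ℓ)))) *
        (∑ o : OO e q, dv L (rect U (yR m o) 0 1 (rr o) (rv o)) ^ 2) +
      M⁻¹ ^ 2 * (7 * (4 * ((q : ℝ) ^ 3 * (σ * N * ℓ) * M) + 12 * N * M ^ 2 * (σ * ℓ) ^ 2)) := by
    funext U
    unfold Hb
    rw [← hM, ← hσ, ← hℓ]
    push_cast
    ring
  have cS' : Continuous fun U : Ed (e + 3) (2 * m) → G =>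
      (M⁻¹ ^ 2 * (14 * (M * (σ * N * ℓ)))) *
        (∑ o : OO e q, dv L (rect U (yR m o) 0 1 (rr o) (rv o)) ^ 2) := continuous_const.mul cS
  rw [e1, EX_add μ cS' continuous_const, EX_smul, EX_const]
  have h6 : (M⁻¹ ^ 2 * (14 * (M * (σ * N * ℓ)))) * EX μ L β (fun U : Ed (e + 3) (2 * m) → G =>
      ∑ o : OO e q, dv L (rect U (yR m o) 0 1 (rr o) (rv o)) ^ 2) ≤
      (M⁻¹ ^ 2 * (14 * (M * (σ * N * ℓ)))) * (M * (κ ^ 2 * (5 * (q / β)))) :=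
    mul_le_mul_of_nonneg_left hS (by positivity)
  obtain ⟨P, hP⟩ : ∃ P : ℝ, P = (q : ℝ) ^ e := ⟨_, rfl⟩
  have hP0 : 0 < P := by rw [hP]; positivity
  have hκ2 : (1 : ℝ) ≤ κ ^ 2 := one_le_pow₀ hκ
  have hqβ' : κ ^ 2 * (P * (q : ℝ) ^ 2) ≤ β := by
    rw [hP]
    calc κ ^ 2 * ((q : ℝ) ^ e * (q : ℝ) ^ 2) = κ ^ 2 * (q : ℝ) ^ (e + 2) := by ring
      _ ≤ β := hqβ
  have t0 : (q : ℝ) / (β * (q : ℝ) ^ (e + 1)) = 1 / (β * P) := by
    rw [hP, pow_succ]; field_simp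
  have t1 : κ ^ 2 * (q : ℝ) ^ 2 / β ^ 2 ≤ 1 / (β * P) := by
    rw [div_le_div_iff₀ (by positivity) (by positivity)]
    calc κ ^ 2 * (q : ℝ) ^ 2 * (β * P) = β * (κ ^ 2 * (P * (q : ℝ) ^ 2)) := by ring
      _ ≤ β * β := mul_le_mul_of_nonneg_left hqβ' hβ.le
      _ = _ := by ring
  have t2 : (q : ℝ) ^ 2 / β ^ 2 ≤ 1 / (β * P) := by
    refine le_trans (div_le_div_of_nonneg_right ?_ (by positivity)) t1
    exact le_mul_of_one_le_left (by positivity) hκ2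
  have s1 : (M⁻¹ ^ 2 * (14 * (M * (σ * N * ℓ)))) * (M * (κ ^ 2 * (5 * (q / β)))) =
      700 * N ^ 2 * (e + 3) * (κ ^ 2 * (q : ℝ) ^ 2 / β ^ 2) := by
    rw [hσ, hℓ]
    push_cast
    field_simp
    ring
  have s2 : M⁻¹ ^ 2 * (7 * (4 * ((q : ℝ) ^ 3 * (σ * N * ℓ) * M) +
      12 * N * M ^ 2 * (σ * ℓ) ^ 2)) = 280 * N ^ 2 * (e + 3) * (1 / (β * P)) +
        8400 * N ^ 3 * (e + 3) ^ 2 * ((q : ℝ) ^ 2 / β ^ 2) := by
    rw [hσ, hℓ, hMq, ← hP]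
    push_cast
    field_simp
    ring
  rw [s1] at h6
  rw [s2, t0]
  unfold CF
  have u1 := mul_le_mul_of_nonneg_left t1 (show (0 : ℝ) ≤ 700 * N ^ 2 * (e + 3) by positivity)
  have u2 := mul_le_mul_of_nonneg_left t2 (show (0 : ℝ) ≤ 8400 * N ^ 3 * (e + 3) ^ 2 by positivity)
  linarith

/-- **the variation of the observable in the time** -/
theorem dif_boundR (hm : 2 ≤ m) (hN : 1 ≤ N) (hβ : 0 < β) (hq : 1 ≤ q) {κ u : ℝ} (hu : 0 ≤ u)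
    (hκ : 1 ≤ κ) (hR : RB μ L (e + 3) m β (5 * q) u) (hu2 : u ^ 2 ≤ κ ^ 2 * (5 * (q / β)))
    (hqβ : κ ^ 2 * (q : ℝ) ^ (e + 2) ≤ β)
    (hqm : 5 * (e + 3) * q < 2 * m) (hqN : (q : ℝ) * (10 * N * (e + 3)) ≤ β) :
    EX μ L β (fun U : Ed (e + 3) (2 * m) → G =>
      (Fq L q (tr (eT (Fin.last (e + 2))) U) - Fq L q U) ^ 2) ≤
      CF e N * (q / (β * (q : ℝ) ^ (e + 1))) := by
  have h2 : 2 * N * (1 / β) * (5 * (e + 3) * q : ℕ) ≤ 1 := by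
    have h3 : 2 * N * (1 / β) * (5 * (e + 3) * q : ℕ) = (q * (10 * N * (e + 3))) / β := by
      push_cast; ring
    rw [h3, div_le_one hβ]
    exact hqN
  refine le_trans ?_ (EX_HbR μ (L := L) hm hN hβ hq hu hκ hR hu2 hqβ)
  unfold EX
  exact div_le_div_of_nonneg_right (dif_Zt μ hm hβ hqm h2) (Zt_pos μ β).le

end

end Pool.Agent.Q206.YM
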