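import Mathlib
import Pool.Agent.Q206.YM.Sort
import Pool.Agent.Y14.Par

/-!
# Hierarchical words
-/

open MeasureTheory Matrix Filter
open scoped Matrix.Norms.Frobenius Topology
open Pool.Agent.H906R3.YM hiding Pl
open Pool.Agent.W793.YM Pool.Agent.TH618.YM Pool.Agent.Y14

namespace Pool.Agent.Q206.YM

set_option linter.unusedSectionVars false
set_option linter.unusedVariables false

noncomputable section

/-- the part of `n` at the level `k` -/
def bt (k n : ℕ) : ℕ := 2 ^ k * (n / 2 ^ k % 2)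

lemma bt_add (k n : ℕ) : bt k n + n % 2 ^ k = n % 2 ^ (k + 1) := by
  unfold bt
  rw [Nat.mod_pow_succ, add_comm]

lemma bt_zero {k n : ℕ} (h : n < 2 ^ k) : bt k n = 0 := by
  unfold bt
  rw [Nat.div_eq_of_lt h, Nat.zero_mod, mul_zero]

/-- the directions other than `0` -/
def K0 (e : ℕ) : List (Fin (e + 3)) := (List.finRange (e + 2)).map Fin.succ

lemma K0_nodup (e : ℕ) : (K0 e).Nodup := by
  unfold K0
  exact (List.nodup_finRange _).map (Fin.succ_injective _)

lemma mem_K0 {e : ℕ} {j : Fin (e + 3)} : j ∈ K0 e ↔ j ≠ 0 := by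
  unfold K0
  constructor
  · intro h
    obtain ⟨i, _, rfl⟩ := List.mem_map.1 h
    exact Fin.succ_ne_zero i
  · intro h
    obtain ⟨i, rfl⟩ := Fin.exists_succ_eq.2 h
    exact List.mem_map.2 ⟨i, List.mem_finRange i, rfl⟩

lemma K0_length (e : ℕ) : (K0 e).length = e + 2 := by
  unfold K0
  rw [List.length_map, List.length_finRange]

variable {e : ℕ}

/-- the hierarchical word -/
def hw : ℕ → (Fin (e + 3) → ℕ) → List (Fin (e + 3))
  | 0, _ => []
  | k + 1, v => cmb (fun j => bt k (v j)) (K0 e) ++ hw k v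

lemma hw_succ (k : ℕ) (v : Fin (e + 3) → ℕ) :
    hw (k + 1) v = cmb (fun j => bt k (v j)) (K0 e) ++ hw k v := rfl

lemma mem_hw {k : ℕ} {v : Fin (e + 3) → ℕ} {j : Fin (e + 3)} (h : j ∈ hw k v) : j ≠ 0 := by
  induction k with
  | zero => simp [hw] at h
  | succ k ih =>
    rw [hw_succ, List.mem_append] at h
    rcases h with h | h
    · exact mem_K0.1 (mem_cmb h).1
    · exact ih h

lemma count_hw (k : ℕ) (v : Fin (e + 3) → ℕ) (j : Fin (e + 3)) :
    (hw k v).count j = if j = 0 then 0 else v j % 2 ^ k := by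
  induction k with
  | zero =>
    simp [hw, Nat.mod_one]
  | succ k ih =>
    rw [hw_succ, List.count_append, ih, count_cmb _ (K0_nodup e)]
    by_cases h : j = 0
    · have : j ∉ K0 e := fun h1 => mem_K0.1 h1 h
      simp [h, this]
      intro h1
      exact absurd rfl (mem_K0.1 h1)
    · rw [if_pos (mem_K0.2 h), if_neg h, if_neg h, bt_add]

lemma cmb_nil_of {d : ℕ} {v : Fin d → ℕ} {K : List (Fin d)} (h : ∀ k ∈ K, v k = 0) :
    cmb v K = [] := by
  induction K with
  | nil => rfl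
  | cons k K ih =>
    rw [cmb_cons, h k List.mem_cons_self, ih fun k' h' => h k' (List.mem_cons_of_mem _ h')]
    rfl

lemma hw_stable {k k' : ℕ} (hk : k' ≤ k) {v : Fin (e + 3) → ℕ} (hv : ∀ j, j ≠ 0 → v j < 2 ^ k') :
    hw k v = hw k' v := by
  induction k with
  | zero =>
    have : k' = 0 := by omega
    rw [this]
  | succ k ih =>
    rcases Nat.eq_or_lt_of_le hk with h | h
    · rw [h]
    · have hk2 : k' ≤ k := by omega
      rw [hw_succ, ih hk2, cmb_nil_of, List.nil_append]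
      intro j hj
      refine bt_zero (lt_of_lt_of_le (hv j (mem_K0.1 hj)) ?_)
      exact Nat.pow_le_pow_right (by norm_num) hk2

/-- a common beginning -/
lemma hw_prefix {r k : ℕ} (hk : r ≤ k) {v v' : Fin (e + 3) → ℕ}
    (h : ∀ j, j ≠ 0 → v j / 2 ^ r = v' j / 2 ^ r) :
    ∃ W : List (Fin (e + 3)), hw k v = W ++ hw r v ∧ hw k v' = W ++ hw r v' := by
  induction k with
  | zero =>
    have : r = 0 := by omega
    subst this
    exact ⟨[], rfl, rfl⟩
  | succ k ih =>
    rcases Nat.eq_or_lt_of_le hk with h1 | h1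
    · subst h1
      exact ⟨[], rfl, rfl⟩
    · have hk2 : r ≤ k := by omega
      obtain ⟨W, h2, h3⟩ := ih hk2
      refine ⟨cmb (fun j => bt k (v j)) (K0 e) ++ W, ?_, ?_⟩
      · rw [hw_succ, h2, List.append_assoc]
      · have h4 : cmb (fun j => bt k (v j)) (K0 e) = cmb (fun j => bt k (v' j)) (K0 e) := by
          refine cmb_congr fun j hj => ?_
          unfold bt
          obtain ⟨t, rfl⟩ := Nat.exists_eq_add_of_le hk2
          rw [pow_add, ← Nat.div_div_eq_div_mul, ← Nat.div_div_eq_div_mul, h j (mem_K0.1 hj)]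
        rw [hw_succ, h3, h4, List.append_assoc]

variable {G : Type*} [Group G] [TopologicalSpace G] [IsTopologicalGroup G] [CompactSpace G]
  [SecondCountableTopology G] [MeasurableSpace G] [BorelSpace G] (μ : Measure G)
  [IsProbabilityMeasure μ] [μ.IsMulLeftInvariant] [μ.IsMulRightInvariant] [μ.IsInvInvariant]
  {N n : ℕ} {L : LD G N n} {m : ℕ} [NeZero m] {β : ℝ}

/-- appending a hierarchical word -/
lemma Srt_hw (hN : 1 ≤ N) {ρ : ℕ} {u : ℝ} (hu : 0 ≤ u) (hR : RB μ L (e + 3) m β ρ u)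
    {x : Fin (e + 3) → ZMod (2 * m)} {k : ℕ} {w : List (Fin (e + 3))} {v v' : Fin (e + 3) → ℕ}
    {b : ℝ} (hv : ∀ j, v j + (hw k v').count j ≤ ρ) (h : Srt μ L β x w v b) :
    Srt μ L β x (w ++ hw k v') (fun j => v j + (hw k v').count j)
      (b + k * ((e + 2 : ℕ) * (((e + 3 : ℕ) : ℝ) * u))) := by
  induction k generalizing w v b with
  | zero =>
    show Srt μ L β x (w ++ []) _ _
    rw [List.append_nil]
    refine h.mono μ (fun j => ?_) (le_of_eq ?_)
    · simp [hw]
    · simp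
  | succ k ih =>
    have hcnt : ∀ j, (hw (k + 1) v').count j =
        (if j ∈ K0 e then bt k (v' j) else 0) + (hw k v').count j := fun j => by
      rw [hw_succ, List.count_append, count_cmb _ (K0_nodup e)]
    have h1 := Srt_cmb μ hN hu hR (v' := fun j => bt k (v' j)) (K := K0 e)
      (fun j => by have := hv j; omega) (fun j hj => by
        have h2 := hv j
        rw [hcnt j, if_pos hj] at h2
        omega) h (K0_nodup e)
    have h2 := ih (w := w ++ cmb (fun j => bt k (v' j)) (K0 e))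
      (v := fun j => v j + if j ∈ K0 e then bt k (v' j) else 0) (fun j => by
        have h2 := hv j
        rw [hcnt j] at h2
        omega) h1
    rw [hw_succ, ← List.append_assoc]
    refine h2.mono μ (fun j => ?_) (le_of_eq ?_)
    · rw [List.count_append, count_cmb _ (K0_nodup e)]
      ring
    · rw [K0_length]
      push_cast
      ring

/-- the divisor weight of a number -/
def g2 (K t : ℕ) : ℕ := ∑ k ∈ Finset.range K, if 2 ^ k ∣ t then 2 ^ k else 0

lemma le_g2 {K t r : ℕ} (hr : r < K) (h : 2 ^ r ∣ t) : 2 ^ r ≤ g2 K t := by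
  unfold g2
  calc 2 ^ r = if 2 ^ r ∣ t then 2 ^ r else 0 := by rw [if_pos h]
    _ ≤ _ := Finset.single_le_sum (f := fun k => if 2 ^ k ∣ t then 2 ^ k else 0)
      (fun _ _ => Nat.zero_le _) (Finset.mem_range.2 hr)

lemma card_dvd_le (T p : ℕ) (hp : 0 < p) :
    p * ((Finset.range T).filter fun t => p ∣ t + 1).card ≤ T := by
  have h1 : (Finset.range T).filter (fun t => p ∣ t + 1) =
      ((Finset.range T).filter fun t => p ∣ t.succ) := rfl
  rw [h1, Nat.card_multiples]
  exact Nat.mul_div_le T p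

lemma sum_g2 (K T : ℕ) : ∑ t ∈ Finset.range T, g2 K (t + 1) ≤ K * T := by
  unfold g2
  rw [Finset.sum_comm]
  calc _ ≤ ∑ k ∈ Finset.range K, T := by
        refine Finset.sum_le_sum fun k _ => ?_
        rw [← Finset.sum_filter, Finset.sum_const, smul_eq_mul, mul_comm]
        exact card_dvd_le T (2 ^ k) (by positivity)
    _ = _ := by rw [Finset.sum_const, Finset.card_range, smul_eq_mul]

/-- the level at which the words to neighbouring points separate -/
lemma carry {t K : ℕ} (ht : t + 1 < 2 ^ K) : ∃ r, r < K ∧ 2 ^ r ∣ t + 1 ∧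
    t / 2 ^ (r + 1) = (t + 1) / 2 ^ (r + 1) ∧ t % 2 ^ (r + 1) + 1 = (t + 1) % 2 ^ (r + 1) := by
  obtain ⟨r, a, ha, h⟩ := Nat.exists_eq_two_pow_mul_odd (Nat.succ_ne_zero t)
  obtain ⟨b, rfl⟩ := ha
  rw [Nat.succ_eq_add_one] at h
  have hp : 0 < 2 ^ r := by positivity
  have hr : r < K := by
    by_contra hc
    have h1 : 2 ^ K ≤ 2 ^ r := Nat.pow_le_pow_right (by norm_num) (not_lt.1 hc)
    nlinarith
  have h2 : t + 1 = 2 ^ (r + 1) * b + 2 ^ r := by rw [h]; ring
  have h3 : t = 2 ^ (r + 1) * b + (2 ^ r - 1) := by omega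
  have h4 : 2 ^ (r + 1) = 2 ^ r * 2 := by rw [pow_succ]
  have hp' : 0 < 2 ^ (r + 1) := by positivity
  have h5 : t / 2 ^ (r + 1) = b := by
    rw [h3, Nat.mul_add_div hp', Nat.div_eq_of_lt (by omega), add_zero]
  have h6 : (t + 1) / 2 ^ (r + 1) = b := by
    rw [h2, Nat.mul_add_div hp', Nat.div_eq_of_lt (by omega), add_zero]
  refine ⟨r, hr, ⟨2 * b + 1, h⟩, by rw [h5, h6], ?_⟩
  have h7 : t % 2 ^ (r + 1) = 2 ^ r - 1 := by
    rw [h3, Nat.mul_add_mod, Nat.mod_eq_of_lt (by omega)]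
  have h8 : (t + 1) % 2 ^ (r + 1) = 2 ^ r := by
    rw [h2, Nat.mul_add_mod, Nat.mod_eq_of_lt (by omega)]
  rw [h7, h8]
  omega

/-- the full word -/
def pw (k : ℕ) (v : Fin (e + 3) → ℕ) : List (Fin (e + 3)) := List.replicate (v 0) 0 ++ hw k v

lemma count_pw {k : ℕ} {v : Fin (e + 3) → ℕ} (hv : ∀ j, j ≠ 0 → v j < 2 ^ k) (j : Fin (e + 3)) :
    (pw k v).count j = v j := by
  unfold pw
  rw [List.count_append, count_hw, List.count_replicate]
  by_cases h : j = 0
  · subst h; simp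
  · have h' : ¬(0 : Fin (e + 3)) = j := fun h1 => h h1.symm
    simp [h, h', Nat.mod_eq_of_lt (hv j h)]

/-- the full word is close to the comb -/
lemma Srt_pw (hN : 1 ≤ N) {ρ : ℕ} {u : ℝ} (hu : 0 ≤ u) (hR : RB μ L (e + 3) m β ρ u)
    {k k' : ℕ} (hk : k' ≤ k) {v : Fin (e + 3) → ℕ} (hv : ∀ j, v j ≤ ρ)
    (hv' : ∀ j, j ≠ 0 → v j < 2 ^ k') :
    Srt μ L β (0 : Fin (e + 3) → ZMod (2 * m)) (pw k v) v
      ((1 + k' * (e + 2 : ℕ)) * (((e + 3 : ℕ) : ℝ) * u)) := by
  have h0 := Srt_rep μ hN hu hR (nn := v 0) (hv 0) (fun _ => Nat.zero_le _)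
    (Srt.nil μ (L := L) (β := β) (0 : Fin (e + 3) → ZMod (2 * m))) 0
  have hst : pw k v = List.replicate (v 0) 0 ++ hw k' v := by
    unfold pw
    rw [hw_stable hk hv']
  rw [List.nil_append] at h0
  have h1 := Srt_hw μ hN hu hR (k := k') (v' := v) (w := List.replicate (v 0) 0)
    (v := fun j => 0 + if j = 0 then v 0 else 0) (fun j => by
      rw [count_hw]
      by_cases h : j = 0
      · subst h; simpa using hv 0
      · simp only [h, if_false, zero_add]
        exact (Nat.mod_le _ _).trans (hv j)) h0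
  rw [hst]
  refine h1.mono μ (fun j => ?_) (le_of_eq ?_)
  · rw [count_hw]
    by_cases h : j = 0
    · subst h; simp
    · simp [h, Nat.mod_eq_of_lt (hv' j h)]
  · push_cast
    ring

/-- the transports to neighbouring points -/
lemma pw_step (hN : 1 ≤ N) {k K : ℕ} (hKk : K ≤ k) {v : Fin (e + 3) → ℕ} {j : Fin (e + 3)}
    (hj : j ≠ 0) (hvj : v j + 1 < 2 ^ K) :
    ∃ r, r < K ∧ 2 ^ r ∣ v j + 1 ∧ ∀ u : ℝ, 0 ≤ u → RB μ L (e + 3) m β (2 ^ (r + 1)) u →
      en μ L β (fun U : Ed (e + 3) (2 * m) → G => dd L (tp eT U 0 (pw k v ++ [j]))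
        (tp eT U 0 (pw k fun i => v i + if i = j then 1 else 0))) ≤
        (2 * ((r + 1 : ℕ) * (e + 2 : ℕ)) + 1) * (((e + 3 : ℕ) : ℝ) * u) := by
  obtain ⟨r, hr, hd, h1, h2⟩ := carry hvj
  refine ⟨r, hr, hd, fun u hu hR => ?_⟩
  obtain ⟨v', hv'⟩ : ∃ v' : Fin (e + 3) → ℕ, v' = fun i => v i + if i = j then 1 else 0 :=
    ⟨_, rfl⟩
  rw [← hv']
  have hv'j : v' j = v j + 1 := by rw [hv']; simp
  have hv'i : ∀ i, i ≠ j → v' i = v i := fun i hi => by rw [hv']; simp [hi]
  have hv'0 : v' 0 = v 0 := hv'i 0 hj.symm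
  obtain ⟨W, hW, hW'⟩ := hw_prefix (r := r + 1) (k := k) (by omega) (v := v) (v' := v')
    (fun i hi => by
      by_cases hij : i = j
      · subst hij; rw [hv'j]; exact h1
      · rw [hv'i i hij])
  obtain ⟨P, hP⟩ : ∃ P, P = List.replicate (v 0) (0 : Fin (e + 3)) ++ W := ⟨_, rfl⟩
  have e1 : pw k v ++ [j] = P ++ (hw (r + 1) v ++ [j]) := by
    unfold pw
    rw [hW, hP]
    simp only [List.append_assoc]
  have e2 : pw k v' = P ++ hw (r + 1) v' := by
    unfold pw
    rw [hW', hP, hv'0]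
    simp only [List.append_assoc]
  rw [e1, e2]
  obtain ⟨x, hx⟩ : ∃ x : Fin (e + 3) → ZMod (2 * m), x = 0 + dsp eT P := ⟨_, rfl⟩
  have e3 : (fun U : Ed (e + 3) (2 * m) → G => dd L (tp eT U 0 (P ++ (hw (r + 1) v ++ [j])))
      (tp eT U 0 (P ++ hw (r + 1) v'))) =
      fun U => dd L (tp eT U x (hw (r + 1) v ++ [j])) (tp eT U x (hw (r + 1) v')) := by
    funext U
    rw [tp_append 0 P, tp_append 0 P, dd_lmul, ← hx]
  rw [e3]
  have hpow : 0 < 2 ^ (r + 1) := by positivity
  have hc : ∀ (v : Fin (e + 3) → ℕ) (i : Fin (e + 3)), (hw (r + 1) v).count i ≤ 2 ^ (r + 1) := by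
    intro v i
    rw [count_hw]
    split_ifs
    · exact Nat.zero_le _
    · exact (Nat.mod_lt _ hpow).le
  have s1 := Srt_hw μ hN hu hR (k := r + 1) (v' := v) (w := []) (v := fun _ => 0)
    (fun i => by simpa using hc v i) (Srt.nil μ (L := L) (β := β) x)
  have s2 := Srt_hw μ hN hu hR (k := r + 1) (v' := v') (w := []) (v := fun _ => 0)
    (fun i => by simpa using hc v' i) (Srt.nil μ (L := L) (β := β) x)
  rw [List.nil_append] at s1 s2
  have s3 := Srt_rep μ hN hu hR (nn := 1) (Nat.one_le_two_pow) (fun i => by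
    simpa using hc v i) s1 j
  have s4 := Srt.cmp μ s3 (Srt.mono μ s2 (fun i => ?_) le_rfl)
  · refine s4.trans (le_of_eq ?_)
    push_cast
    ring
  · rw [count_hw, count_hw]
    by_cases hi : i = 0
    · subst hi
      simp [hj.symm]
    · by_cases hij : i = j
      · subst hij
        simp only [hv'j, if_neg hi, if_true]
        omega
      · simp only [hv'i i hij, if_neg hi, if_neg hij]
        omega

end

end Pool.Agent.Q206.YM
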