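import Mathlib
import Pool.Agent.Q206.YM.Hier
import Pool.Agent.Y14.Var2

/-!
# The shift of the links in a box, with the hierarchical frames
-/

open MeasureTheory Matrix Filter
open scoped Matrix.Norms.Frobenius Topology
open Pool.Agent.H906R3.YM hiding Pl
open Pool.Agent.W793.YM Pool.Agent.TH618.YM Pool.Agent.Y14

namespace Pool.Agent.Q206.YM

set_option linter.unusedSectionVars false
set_option linter.unusedVariables false

noncomputable section

variable {e m : ℕ} [NeZero m]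

section alg

variable {G : Type*} [Group G] [TopologicalSpace G] {N n : ℕ} (L : LD G N n)

/-- the transport from the origin along the hierarchical word -/
def TH (U : Ed (e + 3) (2 * m) → G) (x : Fin (e + 3) → ZMod (2 * m)) : G :=
  tp eT U 0 (pw (2 * m) (wv x))

/-- the factor -/
def hH (q : ℕ) (a : Fin n) (s : ℝ) (U : Ed (e + 3) (2 * m) → G)
    (x : Fin (e + 3) → ZMod (2 * m)) : G :=
  (TH U x)⁻¹ * L.ex a (s * kk q x) * TH U x

/-- the shift -/
def PH (q : ℕ) (a : Fin n) (s : ℝ) (U : Ed (e + 3) (2 * m) → G) : Ed (e + 3) (2 * m) → G :=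
  fun f => if f.2 = 0 then hH L q a s U f.1 * U f else U f

variable {L}

lemma hH_one {q : ℕ} {a : Fin n} {s : ℝ} {U : Ed (e + 3) (2 * m) → G}
    {x : Fin (e + 3) → ZMod (2 * m)} (h : kk q x = 0) : hH L q a s U x = 1 := by
  unfold hH
  rw [h, mul_zero, L.ex_zero]
  group

lemma PH_eq {q : ℕ} {a : Fin n} {s : ℝ} {U : Ed (e + 3) (2 * m) → G} {f : Ed (e + 3) (2 * m)}
    (h : ¬(f.2 = 0 ∧ kk q f.1 ≠ 0)) : PH L q a s U f = U f := by
  unfold PH
  split_ifs with h1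
  · have h2 : kk q f.1 = 0 := by
      by_contra h3
      exact h ⟨h1, h3⟩
    rw [hH_one h2, one_mul]
  · rfl

/-- the links of the word are not shifted -/
lemma pw_unsh {q : ℕ} (hq : 1 ≤ q) {k : ℕ} {v : Fin (e + 3) → ℕ} {f : Ed (e + 3) (2 * m)}
    (h : f ∈ lk eT 0 (pw k v)) : ¬(f.2 = 0 ∧ kk q f.1 ≠ 0) := by
  rintro ⟨h1, h2⟩
  unfold pw at h
  rw [lk_append, List.mem_append] at h
  rcases h with h | h
  · obtain ⟨-, s, _, hs⟩ := mem_lk_rep h
    refine h2 (kk_axis hq one_ne ?_)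
    rw [hs]
    exact smul_zero_coord s one_ne
  · exact mem_hw (lk_dir h) h1

lemma TH_congr {q : ℕ} (hq : 1 ≤ q) {U U' : Ed (e + 3) (2 * m) → G}
    (h : ∀ f : Ed (e + 3) (2 * m), ¬(f.2 = 0 ∧ kk q f.1 ≠ 0) → U f = U' f)
    (x : Fin (e + 3) → ZMod (2 * m)) : TH U x = TH U' x :=
  tp_congr fun f hf => h f (pw_unsh hq hf)

lemma TH_PH {q : ℕ} (hq : 1 ≤ q) (a : Fin n) (s : ℝ) (U : Ed (e + 3) (2 * m) → G)
    (x : Fin (e + 3) → ZMod (2 * m)) : TH (PH L q a s U) x = TH U x :=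
  TH_congr hq (fun f hf => PH_eq hf) x

lemma PH_PH {q : ℕ} (hq : 1 ≤ q) (a : Fin n) (s t : ℝ) (U : Ed (e + 3) (2 * m) → G) :
    PH L q a s (PH L q a t U) = PH L q a (s + t) U := by
  funext f
  have h1 : ∀ (r : ℝ) (V : Ed (e + 3) (2 * m) → G), PH L q a r V f =
      if f.2 = 0 then (TH V f.1)⁻¹ * L.ex a (r * kk q f.1) * TH V f.1 * V f else V f :=
    fun r V => rfl
  rw [h1 s, h1 t, h1 (s + t), TH_PH hq]
  split_ifs with h
  · rw [add_mul, L.ex_add]
    group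
  · rfl

lemma PH_zero (q : ℕ) (a : Fin n) (U : Ed (e + 3) (2 * m) → G) : PH L q a 0 U = U := by
  funext f
  unfold PH hH
  rw [zero_mul, L.ex_zero]
  split_ifs
  · group
  · rfl

lemma ex_neg' (a : Fin n) (s : ℝ) : L.ex a (-s) = (L.ex a s)⁻¹ := by
  rw [eq_inv_iff_mul_eq_one, ← L.ex_add, neg_add_cancel, L.ex_zero]

lemma hH_neg (q : ℕ) (a : Fin n) (s : ℝ) (U : Ed (e + 3) (2 * m) → G)
    (x : Fin (e + 3) → ZMod (2 * m)) : hH L q a (-s) U x = (hH L q a s U x)⁻¹ := by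
  unfold hH
  rw [neg_mul, ex_neg']
  group

end alg

end

end Pool.Agent.Q206.YM
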