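import Mathlib
import Pool.Agent.Q206.YM.Shift

/-!
# The law of the shifted configuration
-/

open MeasureTheory Matrix Filter
open scoped Matrix.Norms.Frobenius Topology
open Pool.Agent.H906R3.YM hiding Pl
open Pool.Agent.W793.YM Pool.Agent.TH618.YM Pool.Agent.Y14

namespace Pool.Agent.Q206.YM

set_option linter.unusedSectionVars false
set_option linter.unusedVariables false

noncomputable section

variable {G : Type*} [Group G] [TopologicalSpace G] [IsTopologicalGroup G] [CompactSpace G]
  [SecondCountableTopology G] [MeasurableSpace G] [BorelSpace G] (μ : Measure G)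
  [IsProbabilityMeasure μ] [μ.IsMulLeftInvariant] [μ.IsMulRightInvariant] [μ.IsInvInvariant]
  {N n : ℕ} {L : LD G N n} {e m : ℕ} [NeZero m] {q : ℕ}

lemma TH_cont (x : Fin (e + 3) → ZMod (2 * m)) :
    Continuous fun U : Ed (e + 3) (2 * m) → G => TH U x := tp_cont _ _

lemma hH_cont (a : Fin n) (s : ℝ) (x : Fin (e + 3) → ZMod (2 * m)) :
    Continuous fun U : Ed (e + 3) (2 * m) → G => hH L q a s U x :=
  (((TH_cont x).inv).mul continuous_const).mul (TH_cont x)

lemma PH_cont (a : Fin n) (s : ℝ) :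
    Continuous (PH L q a s : (Ed (e + 3) (2 * m) → G) → Ed (e + 3) (2 * m) → G) := by
  refine continuous_pi fun f => ?_
  unfold PH
  split_ifs
  · exact (hH_cont a s f.1).mul (continuous_apply f)
  · exact continuous_apply f

theorem PH_int (hq : 1 ≤ q) (a : Fin n) (s : ℝ) {F : (Ed (e + 3) (2 * m) → G) → ℝ}
    (hF : Continuous F) : ∫ U, F (PH L q a s U) ∂(ME μ (Ed (e + 3) (2 * m))) =
      ∫ U, F U ∂(ME μ (Ed (e + 3) (2 * m))) := by
  classical
  have h := integral_skew μ (fun f : Ed (e + 3) (2 * m) => f.2 = 0 ∧ kk q f.1 ≠ 0) hF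
    (a := fun f U => hH L q a s U f.1) (b := fun _ _ => 1) (fun f => hH_cont a s f.1)
    (fun f => continuous_const) (fun f U U' h => by
      unfold hH
      simp only
      rw [TH_congr hq h]) (fun f U U' h => rfl)
  rw [← h]
  refine integral_congr_ae (Filter.Eventually.of_forall fun U => ?_)
  simp only
  congr 1
  funext f
  split_ifs with h1
  · unfold PH
    rw [if_pos h1.1, mul_one]
  · exact PH_eq h1

variable (L) in
/-- the change of the action -/
def XH (β : ℝ) (q : ℕ) (a : Fin n) (s : ℝ) (U : Ed (e + 3) (2 * m) → G) : ℝ :=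
  β * (act L (PH L q a s U) - act L U)

lemma XH_cont (β : ℝ) (a : Fin n) (s : ℝ) :
    Continuous (XH L β q a s : (Ed (e + 3) (2 * m) → G) → ℝ) :=
  continuous_const.mul ((act_cont.comp (PH_cont a s)).sub act_cont)

lemma XH_PH (hq : 1 ≤ q) (β : ℝ) (a : Fin n) (s : ℝ) (U : Ed (e + 3) (2 * m) → G) :
    XH L β q a (-s) (PH L q a s U) = -XH L β q a s U := by
  unfold XH
  rw [PH_PH hq, neg_add_cancel, PH_zero]
  ring

/-- change of variables -/
lemma EX_PH (hq : 1 ≤ q) {β : ℝ} (a : Fin n) (s : ℝ) {F : (Ed (e + 3) (2 * m) → G) → ℝ}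
    (hF : Continuous F) : EX μ L β (fun U => F (PH L q a s U)) =
      EX μ L β (fun U => F U * Real.exp (-XH L β q a (-s) U)) := by
  unfold EX
  congr 1
  have h := PH_int μ (L := L) hq a s (F := fun V : Ed (e + 3) (2 * m) → G =>
    F V * Real.exp (-(β * act L (PH L q a (-s) V)))) (hF.mul (Real.continuous_exp.comp
      (continuous_const.mul (act_cont.comp (PH_cont a (-s)))).neg))
  unfold Zt
  have h1 : ∀ U : Ed (e + 3) (2 * m) → G, F (PH L q a s U) * Real.exp (-(β * act L U)) =
      F (PH L q a s U) * Real.exp (-(β * act L (PH L q a (-s) (PH L q a s U)))) := by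
    intro U
    rw [PH_PH hq, neg_add_cancel, PH_zero]
  simp only [h1]
  rw [h]
  refine integral_congr_ae (Filter.Eventually.of_forall fun U => ?_)
  simp only
  rw [mul_assoc, ← Real.exp_add]
  congr 2
  unfold XH
  ring

lemma EX_exp (hq : 1 ≤ q) {β : ℝ} (a : Fin n) (s : ℝ) :
    EX μ L β (fun U : Ed (e + 3) (2 * m) → G => Real.exp (-XH L β q a s U)) = 1 := by
  have h := EX_PH μ (L := L) (β := β) hq a (-s) (F := fun _ : Ed (e + 3) (2 * m) → G => (1 : ℝ))
    continuous_const
  rw [neg_neg, EX_one] at h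
  simp only [one_mul] at h
  exact h.symm

lemma EX_XH_nonneg (hq : 1 ≤ q) {β : ℝ} (a : Fin n) (s : ℝ) :
    0 ≤ EX μ L β (XH L β q a s : (Ed (e + 3) (2 * m) → G) → ℝ) := by
  have h := EX_exp μ (L := L) (e := e) (m := m) (β := β) hq a s
  have hX := XH_cont (L := L) (q := q) (e := e) (m := m) β a s
  have h1 : EX μ L β (fun U : Ed (e + 3) (2 * m) → G => 1 - XH L β q a s U) ≤
      EX μ L β (fun U : Ed (e + 3) (2 * m) → G => Real.exp (-XH L β q a s U)) := by
    refine EX_mono μ (continuous_const.sub hX) (Real.continuous_exp.comp hX.neg) fun U => ?_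
    have := Real.add_one_le_exp (-XH L β q a s U)
    linarith
  rw [EX_sub μ continuous_const hX, EX_one, h] at h1
  linarith

/-- **the law of the shifted configuration**: small probabilities remain small -/
theorem tilt (hq : 1 ≤ q) {β : ℝ} (a : Fin n) (s : ℝ) {g : (Ed (e + 3) (2 * m) → G) → ℝ}
    (hg : Continuous g) (h0 : ∀ U, 0 ≤ g U) (h1 : ∀ U, g U ≤ 1) :
    EX μ L β (fun U => g (PH L q a s U)) ≤
      3 * EX μ L β g + 3 * EX μ L β (fun U : Ed (e + 3) (2 * m) → G => XH L β q a s U) := by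
  have hX := fun s => XH_cont (L := L) (q := q) (e := e) (m := m) β a s
  obtain ⟨K, hK⟩ : ∃ K : (Ed (e + 3) (2 * m) → G) → ℝ, K = fun V =>
    -XH L β q a (-s) V + Real.exp (-(-XH L β q a (-s) V)) - 1 := ⟨_, rfl⟩
  have hKc : Continuous K := by
    rw [hK]
    exact ((hX (-s)).neg.add (Real.continuous_exp.comp (hX (-s)).neg.neg)).sub continuous_const
  have e1 := EX_PH μ (L := L) (β := β) hq a s hg
  have e2 := EX_PH μ (L := L) (β := β) hq a s hKc
  have e3 : EX μ L β (fun U => K (PH L q a s U)) =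
      EX μ L β (fun U : Ed (e + 3) (2 * m) → G => XH L β q a s U) := by
    have e4 : (fun U : Ed (e + 3) (2 * m) → G => K (PH L q a s U)) =
        fun U => (XH L β q a s U + Real.exp (-XH L β q a s U)) - 1 := by
      funext U
      rw [hK]
      simp only
      rw [XH_PH hq]
      simp only [neg_neg]
    have c1 : Continuous fun U : Ed (e + 3) (2 * m) → G => Real.exp (-XH L β q a s U) :=
      Real.continuous_exp.comp (hX s).neg
    have c1' : Continuous fun U : Ed (e + 3) (2 * m) → G =>
        XH L β q a s U + Real.exp (-XH L β q a s U) := (hX s).add c1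
    rw [e4, EX_sub μ c1' continuous_const, EX_add μ (hX s) c1, EX_exp μ hq, EX_one]
    ring
  rw [e1, ← e3, e2]
  have c2 : Continuous fun U : Ed (e + 3) (2 * m) → G => Real.exp (-XH L β q a (-s) U) :=
    Real.continuous_exp.comp (hX (-s)).neg
  have c3 : Continuous fun U : Ed (e + 3) (2 * m) → G => K U * Real.exp (-XH L β q a (-s) U) :=
    hKc.mul c2
  have c4 : Continuous fun U : Ed (e + 3) (2 * m) → G => 3 * g U := continuous_const.mul hg
  have c5 : Continuous fun U : Ed (e + 3) (2 * m) → G =>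
    3 * (K U * Real.exp (-XH L β q a (-s) U)) := continuous_const.mul c3
  rw [← EX_smul, ← EX_smul, ← EX_add μ c4 c5]
  refine EX_mono μ (hg.mul c2) (c4.add c5) fun U => ?_
  have := tilt_pt (h0 U) (h1 U) (t := -XH L β q a (-s) U)
  rw [hK]
  exact this

end

end Pool.Agent.Q206.YM
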