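import Mathlib
import Pool.Agent.Q206.YM.Shift2

/-!
# The energy of the shift
-/

open MeasureTheory Matrix Filter
open scoped Matrix.Norms.Frobenius Topology
open Pool.Agent.H906R3.YM hiding Pl
open Pool.Agent.W793.YM Pool.Agent.TH618.YM Pool.Agent.Y14

namespace Pool.Agent.Q206.YM

set_option linter.unusedSectionVars false
set_option linter.unusedVariables false

noncomputable section

variable {G : Type*} [Group G] [TopologicalSpace G] [IsTopologicalGroup G] [CompactSpace G]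
  [SecondCountableTopology G] [MeasurableSpace G] [BorelSpace G] (μ : Measure G)
  [IsProbabilityMeasure μ] [μ.IsMulLeftInvariant] [μ.IsMulRightInvariant] [μ.IsInvInvariant]
  {N n : ℕ} {L : LD G N n} {e m : ℕ} [NeZero m] {q : ℕ}

lemma plq_PH0 (a : Fin n) (s : ℝ) (U : Ed (e + 3) (2 * m) → G) (x : Fin (e + 3) → ZMod (2 * m))
    {j : Fin (e + 3)} (hj : j ≠ 0) : plqT (PH L q a s U) x 0 j =
      hH L q a s U x * plqT U x 0 j * (U (x, j) * hH L q a s U (x + eT j) * (U (x, j))⁻¹)⁻¹ := by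
  unfold plqT PH
  simp only [if_true, if_neg hj]
  group

lemma plq_PH1 (a : Fin n) (s : ℝ) (U : Ed (e + 3) (2 * m) → G) (x : Fin (e + 3) → ZMod (2 * m))
    {i j : Fin (e + 3)} (hi : i ≠ 0) (hj : j ≠ 0) : plqT (PH L q a s U) x i j = plqT U x i j := by
  unfold plqT PH
  simp only [if_neg hi, if_neg hj]

/-- the second difference of the energy of a plaquette -/
def DH (L : LD G N n) (q : ℕ) (a : Fin n) (s : ℝ) (U : Ed (e + 3) (2 * m) → G)
    (x : Fin (e + 3) → ZMod (2 * m)) (j : Fin (e + 3)) : ℝ :=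
  we L (plqT (PH L q a s U) x 0 j) + we L (plqT (PH L q a (-s) U) x 0 j) -
    2 * we L (plqT U x 0 j)

/-- the bound -/
def BH (L : LD G N n) (q : ℕ) (s : ℝ) (U : Ed (e + 3) (2 * m) → G)
    (x : Fin (e + 3) → ZMod (2 * m)) (j : Fin (e + 3)) : ℝ :=
  s ^ 2 * (1 / (q : ℝ) ^ 2 + 16 * dd L (TH U x * U (x, j)) (TH U (x + eT j)) ^ 2 +
    dv L (plqT U x 0 j) ^ 2)

lemma DH_zero (a : Fin n) (s : ℝ) (U : Ed (e + 3) (2 * m) → G) {x : Fin (e + 3) → ZMod (2 * m)}
    {j : Fin (e + 3)} (hj : j ≠ 0) (h1 : kk q x = 0) (h2 : kk q (x + eT j) = 0) :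
    DH L q a s U x j = 0 := by
  unfold DH
  rw [plq_PH0 _ _ _ _ hj, plq_PH0 _ _ _ _ hj, hH_one h1, hH_one h1, hH_one h2, hH_one h2]
  simp
  ring

lemma DH_le (hq : 1 ≤ q) (a : Fin n) (s : ℝ) (U : Ed (e + 3) (2 * m) → G)
    {x : Fin (e + 3) → ZMod (2 * m)} {j : Fin (e + 3)} (hj : j ≠ 0) (hx : wv x j + 1 < 2 * m) :
    DH L q a s U x j ≤ BH L q s U x j := by
  obtain ⟨h, hh1⟩ : ∃ h, h = hH L q a s U x := ⟨_, rfl⟩
  obtain ⟨h', hh2⟩ : ∃ h', h' = U (x, j) * hH L q a s U (x + eT j) * (U (x, j))⁻¹ := ⟨_, rfl⟩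
  obtain ⟨P, hP⟩ : ∃ P, P = plqT U x 0 j := ⟨_, rfl⟩
  obtain ⟨g, hg⟩ : ∃ g, g = TH U x * U (x, j) * (TH U (x + eT j))⁻¹ := ⟨_, rfl⟩
  have e1 : DH L q a s U x j = we L (h * P * h'⁻¹) + we L (h⁻¹ * P * h') - 2 * we L P := by
    unfold DH
    rw [plq_PH0 _ _ _ _ hj, plq_PH0 _ _ _ _ hj, hH_neg, hH_neg, ← hh1, ← hP]
    have e2 : (U (x, j) * (hH L q a s U (x + eT j))⁻¹ * (U (x, j))⁻¹)⁻¹ = h' := by
      rw [hh2]; group
    rw [e2, ← hh2]
  have hgd : dd L (TH U x * U (x, j)) (TH U (x + eT j)) = dv L g := by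
    rw [dd_dv, hg]
  have hq1 : (1 : ℝ) ≤ q := by exact_mod_cast hq
  have hq0 : (0 : ℝ) < q := by linarith
  obtain ⟨k, hk⟩ : ∃ k, k = kk q x := ⟨_, rfl⟩
  obtain ⟨k', hk'⟩ : ∃ k', k' = kk q (x + eT j) := ⟨_, rfl⟩
  have hk1 : |k - k'| ≤ 1 / (2 * q) := by rw [hk, hk']; exact kk_lip hq hj hx
  have hk0 : |k| ≤ 1 := by rw [hk, abs_of_nonneg (kk_nonneg q x)]; exact kk_le q x
  have hk0' : |k'| ≤ 1 := by rw [hk', abs_of_nonneg (kk_nonneg q _)]; exact kk_le q _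
  have hs0 := abs_nonneg s
  have dvg := dv_nonneg (L := L) g
  have dh : dv L h ≤ |s| := by
    rw [hh1]
    unfold hH
    have h1 := dv_conj (L := L) (TH U x)⁻¹ (L.ex a (s * kk q x))
    rw [inv_inv] at h1
    rw [h1]
    refine (dv_ex a _).trans ?_
    rw [abs_mul, ← hk]
    exact mul_le_of_le_one_right hs0 hk0
  have dh' : dv L h' ≤ |s| := by
    rw [hh2, dv_conj]
    unfold hH
    have h1 := dv_conj (L := L) (TH U (x + eT j))⁻¹ (L.ex a (s * kk q (x + eT j)))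
    rw [inv_inv] at h1
    rw [h1]
    refine (dv_ex a _).trans ?_
    rw [abs_mul, ← hk']
    exact mul_le_of_le_one_right hs0 hk0'
  have dhh : dd L h h' ≤ |s| * (1 / (2 * q) + 2 * dv L g) := by
    have h1 : dd L h h' = dd L (L.ex a (s * k)) (g * L.ex a (s * k') * g⁻¹) := by
      have h2 : h = (TH U x)⁻¹ * (L.ex a (s * k) * TH U x) := by
        rw [hh1, hk]; unfold hH; group
      have h3 : h' = (TH U x)⁻¹ * (g * L.ex a (s * k') * g⁻¹ * TH U x) := by
        rw [hh2, hk', hg]; unfold hH; group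
      rw [h2, h3, dd_lmul, dd_rmul]
    rw [h1]
    have h4 := dd_tri (L := L) (L.ex a (s * k)) (L.ex a (s * k')) (g * L.ex a (s * k') * g⁻¹)
    have h5 := dd_ex (L := L) a (s * k) (s * k')
    have h6 := dd_conj (L := L) g (L.ex a (s * k'))
    have h7 := dv_ex (L := L) a (s * k')
    rw [← mul_sub, abs_mul] at h5
    rw [abs_mul] at h7
    have h8 : |s| * |k - k'| ≤ |s| * (1 / (2 * q)) := mul_le_mul_of_nonneg_left hk1 hs0
    have h9 : |s| * |k'| ≤ |s| := mul_le_of_le_one_right hs0 hk0'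
    have h10 : 2 * dv L (L.ex a (s * k')) * dv L g ≤ 2 * |s| * dv L g := by
      refine mul_le_mul_of_nonneg_right ?_ dvg
      linarith
    calc _ ≤ _ := h4
      _ ≤ |s| * (1 / (2 * q)) + 2 * |s| * dv L g := by linarith
      _ = _ := by ring
  have hsd := second_diff (L := L) h h' P
  rw [← e1] at hsd
  have dn := dd_nonneg (L := L) h h'
  have pn := dv_nonneg (L := L) P
  have h11 : dd L h h' ^ 2 ≤ s ^ 2 * (1 / (2 * (q : ℝ) ^ 2) + 8 * dv L g ^ 2) := by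
    calc dd L h h' ^ 2 ≤ (|s| * (1 / (2 * q) + 2 * dv L g)) ^ 2 := pow_le_pow_left₀ dn dhh 2
      _ = s ^ 2 * (1 / (2 * q) + 2 * dv L g) ^ 2 := by rw [mul_pow, sq_abs]
      _ ≤ s ^ 2 * (2 * (1 / (2 * (q : ℝ))) ^ 2 + 2 * (2 * dv L g) ^ 2) := by
          refine mul_le_mul_of_nonneg_left ?_ (sq_nonneg s)
          nlinarith [sq_nonneg (1 / (2 * (q : ℝ)) - 2 * dv L g)]
      _ = _ := by field_simp; ring
  have h12 : dv L P * (dd L h h' * (dv L h + dv L h')) ≤ dd L h h' ^ 2 + s ^ 2 * dv L P ^ 2 := by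
    have h13 : dv L P * (dd L h h' * (dv L h + dv L h')) ≤ dv L P * (dd L h h' * (2 * |s|)) := by
      refine mul_le_mul_of_nonneg_left (mul_le_mul_of_nonneg_left ?_ dn) pn
      linarith
    have h14 : s ^ 2 = |s| ^ 2 := (sq_abs s).symm
    rw [h14]
    nlinarith [sq_nonneg (dd L h h' - |s| * dv L P)]
  unfold BH
  rw [hgd, ← hP]
  have h15 : s ^ 2 * (1 / (2 * (q : ℝ) ^ 2) + 8 * dv L g ^ 2) +
      s ^ 2 * (1 / (2 * (q : ℝ) ^ 2) + 8 * dv L g ^ 2) =
      s ^ 2 * (1 / (q : ℝ) ^ 2 + 16 * dv L g ^ 2) := by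
    field_simp; ring
  linarith

lemma BH_nonneg (s : ℝ) (U : Ed (e + 3) (2 * m) → G) (x : Fin (e + 3) → ZMod (2 * m))
    (j : Fin (e + 3)) : 0 ≤ BH L q s U x j := by
  unfold BH
  positivity

/-- the second difference of the action -/
theorem act_second (hq : 1 ≤ q) (hqm : 4 * q + 1 < 2 * m) (a : Fin n) (s : ℝ)
    (U : Ed (e + 3) (2 * m) → G) :
    act L (PH L q a s U) + act L (PH L q a (-s) U) - 2 * act L U ≤
      ∑ x ∈ SS e m q, ∑ j ∈ Finset.univ.erase (0 : Fin (e + 3)), BH L q s U x j := by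
  unfold act
  rw [Finset.mul_sum, ← Finset.sum_add_distrib, ← Finset.sum_sub_distrib]
  have h1 : ∀ x : Fin (e + 3) → ZMod (2 * m),
      (∑ i, ∑ j, if i < j then we L (plqT (PH L q a s U) x i j) else 0) +
        (∑ i, ∑ j, if i < j then we L (plqT (PH L q a (-s) U) x i j) else 0) -
        2 * (∑ i, ∑ j, if i < j then we L (plqT U x i j) else 0) =
      ∑ j ∈ Finset.univ.erase (0 : Fin (e + 3)), DH L q a s U x j := by
    intro x
    rw [Finset.mul_sum, ← Finset.sum_add_distrib, ← Finset.sum_sub_distrib,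
      Finset.sum_eq_single (0 : Fin (e + 3))]
    · rw [Finset.mul_sum, ← Finset.sum_add_distrib, ← Finset.sum_sub_distrib,
        ← Finset.add_sum_erase _ _ (Finset.mem_univ (0 : Fin (e + 3)))]
      simp only [lt_irrefl, if_false, mul_zero, add_zero, sub_zero, zero_add]
      refine Finset.sum_congr rfl fun j hj => ?_
      have hj0 : (0 : Fin (e + 3)) < j := Fin.pos_iff_ne_zero.2 (Finset.mem_erase.1 hj).1
      rw [if_pos hj0, if_pos hj0, if_pos hj0]
      rfl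
    · intro i _ hi
      rw [Finset.mul_sum, ← Finset.sum_add_distrib, ← Finset.sum_sub_distrib]
      refine Finset.sum_eq_zero fun j _ => ?_
      split_ifs with hij
      · have hj : j ≠ 0 := by
          rintro rfl
          exact absurd hij (Fin.not_lt_zero i)
        rw [plq_PH1 _ _ _ _ hi hj, plq_PH1 _ _ _ _ hi hj]
        ring
      · ring
    · simp
  rw [Finset.sum_congr rfl fun x _ => h1 x]
  rw [← Finset.sum_subset (Finset.subset_univ (SS e m q))]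
  · refine Finset.sum_le_sum fun x hx => Finset.sum_le_sum fun j hj => ?_
    refine DH_le hq a s U (Finset.mem_erase.1 hj).1 ?_
    have := (Finset.mem_filter.1 hx).2 j
    omega
  · intro x _ hx
    refine Finset.sum_eq_zero fun j hj => ?_
    have hj0 := (Finset.mem_erase.1 hj).1
    obtain ⟨h2, h3⟩ := kk_box hq hqm hj0 hx
    exact DH_zero a s U hj0 h2 h3


/-- the strip between the words to neighbouring points -/
lemma strip_en (hm : 2 ≤ m) (hN : 1 ≤ N) {β κ : ℝ} (hβ : 0 < β) (hκ : 0 ≤ κ) {K : ℕ}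
    (hK : 4 * q + 1 < 2 ^ K) (hKm : K ≤ 2 * m)
    (hR : ∀ ρ : ℕ, ρ ≤ 2 ^ K → RB μ L (e + 3) m β ρ (κ * Real.sqrt (ρ / β)))
    (hqm : 4 * q + 1 < 2 * m)
    {x : Fin (e + 3) → ZMod (2 * m)} (hx : x ∈ SS e m q) {j : Fin (e + 3)} (hj : j ≠ 0) :
    EX μ L β (fun U : Ed (e + 3) (2 * m) → G =>
      dd L (TH U x * U (x, j)) (TH U (x + eT j)) ^ 2) ≤
      18 * ((e : ℝ) + 3) ^ 4 * K ^ 2 * κ ^ 2 / β * (g2 K (wv x j + 1) : ℝ) := by
  have hx' := (Finset.mem_filter.1 hx).2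
  obtain ⟨r, hr, hd, hb⟩ := pw_step μ (L := L) (e := e) (m := m) (β := β) hN hKm (v := wv x) hj
    (by have := hx' j; omega)
  have hpw : 2 ^ (r + 1) ≤ 2 ^ K := Nat.pow_le_pow_right (by norm_num) (by omega)
  have h1 := hb (κ * Real.sqrt ((2 ^ (r + 1) : ℕ) / β)) (by positivity) (hR _ hpw)
  have h2 : (fun U : Ed (e + 3) (2 * m) → G => dd L (tp eT U 0 (pw (2 * m) (wv x) ++ [j]))
        (tp eT U 0 (pw (2 * m) fun i => wv x i + if i = j then 1 else 0))) =
      fun U => dd L (TH U x * U (x, j)) (TH U (x + eT j)) := by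
    funext U
    have e1 : (fun k => wv x k + if k = j then 1 else 0) = wv (x + eT j) := by
      rw [wv_add (by have := hx' j; omega)]
      funext k
      by_cases hk : k = j
      · subst hk; simp [es_same]
      · simp [es_ne hk, hk]
    have e2 : (dsp eT (pw (2 * m) (wv x)) : Fin (e + 3) → ZMod (2 * m)) = x := by
      funext i
      rw [dsp_apply, count_pw (fun j _ => lt_trans (Nat.lt_two_pow_self)
        (Nat.pow_lt_pow_right (by norm_num) (wv_lt x j)))]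
      unfold wv
      exact ZMod.natCast_zmod_val _
    rw [e1, tp_append, e2, zero_add]
    have e3 : tp eT U x [j] = U (x, j) := by
      show U (x, j) * 1 = _
      rw [mul_one]
    rw [e3]
    rfl
  rw [h2] at h1
  rw [← en_sq]
  refine (pow_le_pow_left₀ (en_nonneg μ _) h1 2).trans ?_
  have hK1 : (1 : ℝ) ≤ K := by
    have : 1 ≤ K := by omega
    exact_mod_cast this
  have he : (0 : ℝ) ≤ e := Nat.cast_nonneg e
  have hrK : ((r : ℝ) + 1) ≤ K := by exact_mod_cast (by omega : r + 1 ≤ K)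
  have h3 : 2 * (((r + 1 : ℕ) : ℝ) * ((e + 2 : ℕ) : ℝ)) + 1 ≤ 3 * ((e + 3) * K) := by
    push_cast
    have h4 : ((r : ℝ) + 1) * (e + 2) ≤ K * (e + 2) :=
      mul_le_mul_of_nonneg_right hrK (by positivity)
    nlinarith
  have h5 : (2 : ℝ) ^ r ≤ (g2 K (wv x j + 1) : ℝ) := by
    exact_mod_cast le_g2 hr hd
  have hsq : Real.sqrt ((2 ^ (r + 1) : ℕ) / β) ^ 2 = 2 * 2 ^ r / β := by
    rw [Real.sq_sqrt (by positivity)]
    push_cast
    ring
  have h0 : 0 ≤ 2 * (((r + 1 : ℕ) : ℝ) * ((e + 2 : ℕ) : ℝ)) + 1 := by positivity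
  calc ((2 * (((r + 1 : ℕ) : ℝ) * ((e + 2 : ℕ) : ℝ)) + 1) *
        (((e + 3 : ℕ) : ℝ) * (κ * Real.sqrt ((2 ^ (r + 1) : ℕ) / β)))) ^ 2 =
      (2 * (((r + 1 : ℕ) : ℝ) * ((e + 2 : ℕ) : ℝ)) + 1) ^ 2 *
        ((((e + 3 : ℕ) : ℝ)) ^ 2 * (κ ^ 2 * (2 * 2 ^ r / β))) := by
        rw [mul_pow, mul_pow, mul_pow, hsq]
    _ ≤ (3 * (((e : ℝ) + 3) * K)) ^ 2 * ((((e + 3 : ℕ) : ℝ)) ^ 2 * (κ ^ 2 *
        (2 * (g2 K (wv x j + 1) : ℝ) / β))) := by
        refine mul_le_mul (pow_le_pow_left₀ h0 h3 2) ?_ (by positivity) (by positivity)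
        refine mul_le_mul_of_nonneg_left (mul_le_mul_of_nonneg_left ?_ (by positivity))
          (by positivity)
        exact div_le_div_of_nonneg_right (by linarith) hβ.le
    _ = _ := by push_cast; ring

/-- the sum of a function of one coordinate over the box -/
lemma sum_SS (j : Fin (e + 3)) (g : ℕ → ℝ) (hg : ∀ t, 0 ≤ g t) :
    ∑ x ∈ SS e m q, g (wv x j) ≤
      (4 * q + 1) ^ (e + 2) * ∑ t ∈ Finset.range (4 * q + 1), g t := by
  classical
  have h1 : ∑ x ∈ SS e m q, g (wv x j) ≤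
      ∑ v ∈ Fintype.piFinset fun _ : Fin (e + 3) => Finset.range (4 * q + 1), g (v j) := by
    have h2 : ∑ x ∈ SS e m q, g (wv x j) = ∑ v ∈ (SS e m q).image wv, g (v j) := by
      rw [Finset.sum_image fun x _ y _ h => wv_inj h]
    rw [h2]
    refine Finset.sum_le_sum_of_subset_of_nonneg ?_ fun _ _ _ => hg _
    intro v hv
    obtain ⟨x, hx, rfl⟩ := Finset.mem_image.1 hv
    have hx' := (Finset.mem_filter.1 hx).2
    rw [Fintype.mem_piFinset]
    intro i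
    rw [Finset.mem_range]
    have := hx' i
    omega
  refine h1.trans (le_of_eq ?_)
  have h3 : ∀ v : Fin (e + 3) → ℕ, g (v j) = ∏ i, (if i = j then g (v i) else 1) := by
    intro v
    rw [Finset.prod_ite_eq' Finset.univ j (fun i => g (v i)), if_pos (Finset.mem_univ j)]
  simp only [h3]
  rw [← Finset.prod_univ_sum (fun _ : Fin (e + 3) => Finset.range (4 * q + 1))
    (fun i t => if i = j then g t else 1), ← Finset.mul_prod_erase _ _ (Finset.mem_univ j)]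
  have h4 : ∏ i ∈ Finset.univ.erase j, ∑ t ∈ Finset.range (4 * q + 1),
      (if i = j then g t else (1 : ℝ)) = (4 * q + 1) ^ (e + 2) := by
    rw [Finset.prod_congr rfl (g := fun _ => ((4 * q + 1 : ℕ) : ℝ)) fun i hi => ?_]
    · rw [Finset.prod_const, Finset.card_erase_of_mem (Finset.mem_univ _), Finset.card_univ,
        Fintype.card_fin]
      push_cast
      rfl
    · simp only [if_neg (Finset.mem_erase.1 hi).1]
      rw [Finset.sum_const, Finset.card_range, nsmul_eq_mul, mul_one]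
  rw [h4, mul_comm]
  simp only [if_true]

/-- the constant -/
def CE (e N : ℕ) : ℝ := 5 ^ (e + 3) * (e + 3) * (1 + 288 * (e + 3) ^ 4 + 2 * N ^ 2)

lemma CE_pos : 0 < CE e N := by unfold CE; positivity

/-- **the energy of the shift** -/
theorem XH_bound (hm : 2 ≤ m) (hN : 1 ≤ N) {β κ : ℝ} (hβ0 : 0 < β) (hq : 1 ≤ q) (hκ : 0 ≤ κ)
    {K : ℕ} (hK : 4 * q + 1 < 2 ^ K) (hKm : K ≤ 2 * m)
    (hR : ∀ ρ : ℕ, ρ ≤ 2 ^ K → RB μ L (e + 3) m β ρ (κ * Real.sqrt (ρ / β)))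
    (hqm : 4 * q + 1 < 2 * m) (hqβ : (q : ℝ) ^ 2 ≤ β) (hβ : K ^ 3 * κ ^ 2 * (q : ℝ) ^ 2 ≤ β)
    (a : Fin n) (s : ℝ) :
    EX μ L β (fun U : Ed (e + 3) (2 * m) → G => XH L β q a s U) ≤
      CE e N * (s ^ 2 * β * (q : ℝ) ^ (e + 1)) := by
  have hq1 : (1 : ℝ) ≤ q := by exact_mod_cast hq
  have hq0 : (0 : ℝ) < q := by linarith
  have hX := fun s => XH_cont (L := L) (q := q) (e := e) (m := m) β a s
  have hXn := EX_XH_nonneg μ (L := L) (e := e) (m := m) (β := β) hq a (-s)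
  have hpl : ∀ (x : Fin (e + 3) → ZMod (2 * m)) (j : Fin (e + 3)),
      Continuous fun U : Ed (e + 3) (2 * m) → G => plqT U x 0 j := fun x j => by
    unfold plqT; fun_prop
  have hBc1 : ∀ (x : Fin (e + 3) → ZMod (2 * m)) (j : Fin (e + 3)),
      Continuous fun U : Ed (e + 3) (2 * m) → G =>
        dd L (TH U x * U (x, j)) (TH U (x + eT j)) ^ 2 := fun x j =>
    (dd_cont ((TH_cont x).mul (continuous_apply _)) (TH_cont _)).pow 2
  have hBc2 : ∀ (x : Fin (e + 3) → ZMod (2 * m)) (j : Fin (e + 3)),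
      Continuous fun U : Ed (e + 3) (2 * m) → G => dv L (plqT U x 0 j) ^ 2 := fun x j =>
    (dv_cont.comp (hpl x j)).pow 2
  have hBc : ∀ (x : Fin (e + 3) → ZMod (2 * m)) (j : Fin (e + 3)),
      Continuous fun U : Ed (e + 3) (2 * m) → G => BH L q s U x j := fun x j => by
    unfold BH
    exact continuous_const.mul ((continuous_const.add (continuous_const.mul (hBc1 x j))).add
      (hBc2 x j))
  have h1 : EX μ L β (fun U : Ed (e + 3) (2 * m) → G => XH L β q a s U) ≤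
      EX μ L β (fun U : Ed (e + 3) (2 * m) → G => β *
        ∑ x ∈ SS e m q, ∑ j ∈ Finset.univ.erase (0 : Fin (e + 3)), BH L q s U x j) := by
    have h2 : EX μ L β (fun U : Ed (e + 3) (2 * m) → G => XH L β q a s U) ≤
        EX μ L β (fun U : Ed (e + 3) (2 * m) → G => XH L β q a s U + XH L β q a (-s) U) := by
      rw [EX_add μ (hX s) (hX (-s))]
      linarith
    refine h2.trans (EX_mono μ ((hX s).add (hX (-s))) (continuous_const.mul
      (continuous_finsetSum _ fun x _ => continuous_finsetSum _ fun j _ => hBc x j)) fun U => ?_)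
    have h3 := mul_le_mul_of_nonneg_left (act_second (L := L) hq hqm a s U) hβ0.le
    refine le_trans (le_of_eq ?_) h3
    unfold XH
    ring
  obtain ⟨A, hA⟩ : ∃ A : ℝ, A = 18 * ((e : ℝ) + 3) ^ 4 * K ^ 2 * κ ^ 2 / β := ⟨_, rfl⟩
  have hA0 : 0 ≤ A := by rw [hA]; positivity
  have hBe : ∀ x ∈ SS e m q, ∀ j ∈ Finset.univ.erase (0 : Fin (e + 3)),
      EX μ L β (fun U : Ed (e + 3) (2 * m) → G => BH L q s U x j) ≤
      s ^ 2 * (1 / (q : ℝ) ^ 2 + 2 * N ^ 2 / β) +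
        s ^ 2 * (16 * A) * (g2 K (wv x j + 1) : ℝ) := by
    intro x hx j hj
    have hj0 := (Finset.mem_erase.1 hj).1
    unfold BH
    have c1 : Continuous fun U : Ed (e + 3) (2 * m) → G => (1 / (q : ℝ) ^ 2 +
        16 * dd L (TH U x * U (x, j)) (TH U (x + eT j)) ^ 2) :=
      continuous_const.add (continuous_const.mul (hBc1 x j))
    have c2 : Continuous fun U : Ed (e + 3) (2 * m) → G =>
        16 * dd L (TH U x * U (x, j)) (TH U (x + eT j)) ^ 2 := continuous_const.mul (hBc1 x j)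
    rw [EX_smul, EX_add μ c1 (hBc2 x j), EX_add μ continuous_const c2, EX_smul, EX_const]
    have h4 := strip_en μ (L := L) hm hN hβ0 hκ hK hKm hR hqm hx hj0
    have h5 := plaq_bound μ (L := L) hm hβ0 hj0.symm x
    rw [← hA] at h4
    calc _ ≤ s ^ 2 * (1 / (q : ℝ) ^ 2 + 16 * (A * (g2 K (wv x j + 1) : ℝ)) + 2 * N ^ 2 / β) := by
          refine mul_le_mul_of_nonneg_left ?_ (sq_nonneg s)
          linarith
      _ = _ := by ring
  refine h1.trans ?_
  have hs1 : EX μ L β (fun U : Ed (e + 3) (2 * m) → G =>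
      ∑ x ∈ SS e m q, ∑ j ∈ Finset.univ.erase (0 : Fin (e + 3)), BH L q s U x j) =
      ∑ x ∈ SS e m q, ∑ j ∈ Finset.univ.erase (0 : Fin (e + 3)),
        EX μ L β (fun U : Ed (e + 3) (2 * m) → G => BH L q s U x j) := by
    rw [EX_sum μ (SS e m q) (F := fun x (U : Ed (e + 3) (2 * m) → G) =>
      ∑ j ∈ Finset.univ.erase (0 : Fin (e + 3)), BH L q s U x j)
      fun x _ => continuous_finsetSum _ fun j _ => hBc x j]
    refine Finset.sum_congr rfl fun x _ => ?_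
    rw [EX_sum μ _ (F := fun j (U : Ed (e + 3) (2 * m) → G) => BH L q s U x j)
      fun j _ => hBc x j]
  rw [EX_smul, hs1]
  have hcE : ((Finset.univ.erase (0 : Fin (e + 3))).card : ℝ) ≤ e + 3 := by
    rw [Finset.card_erase_of_mem (Finset.mem_univ _), Finset.card_univ, Fintype.card_fin]
    have : e + 3 - 1 = e + 2 := rfl
    rw [this]
    push_cast
    linarith
  have hcS : ((SS e m q).card : ℝ) ≤ (4 * q + 1) ^ (e + 3) := by
    exact_mod_cast card_SS (e := e) (m := m) (q := q)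
  obtain ⟨B, hB⟩ : ∃ B : ℝ, B = 1 / (q : ℝ) ^ 2 + 2 * N ^ 2 / β := ⟨_, rfl⟩
  have hB0 : 0 ≤ B := by rw [hB]; positivity
  rw [← hB] at hBe
  have h6 : ∑ x ∈ SS e m q, ∑ j ∈ Finset.univ.erase (0 : Fin (e + 3)),
      EX μ L β (fun U : Ed (e + 3) (2 * m) → G => BH L q s U x j) ≤
      (4 * q + 1) ^ (e + 3) * ((e + 3) * (s ^ 2 * (B + 16 * A * K))) := by
    calc _ ≤ ∑ x ∈ SS e m q, ∑ j ∈ Finset.univ.erase (0 : Fin (e + 3)),
          (s ^ 2 * B + s ^ 2 * (16 * A) * (g2 K (wv x j + 1) : ℝ)) :=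
          Finset.sum_le_sum fun x hx => Finset.sum_le_sum fun j hj => hBe x hx j hj
      _ = ∑ j ∈ Finset.univ.erase (0 : Fin (e + 3)), ((SS e m q).card * (s ^ 2 * B) +
          s ^ 2 * (16 * A) * ∑ x ∈ SS e m q, (g2 K (wv x j + 1) : ℝ)) := by
          rw [Finset.sum_comm]
          refine Finset.sum_congr rfl fun j _ => ?_
          rw [Finset.sum_add_distrib, Finset.sum_const, nsmul_eq_mul, Finset.mul_sum]
      _ ≤ ∑ _j ∈ Finset.univ.erase (0 : Fin (e + 3)), ((4 * q + 1) ^ (e + 3) *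
          (s ^ 2 * (B + 16 * A * K))) := by
          refine Finset.sum_le_sum fun j _ => ?_
          have k1 := sum_SS (e := e) (m := m) (q := q) j (fun t => (g2 K (t + 1) : ℝ))
            fun t => Nat.cast_nonneg _
          have k2 : ∑ t ∈ Finset.range (4 * q + 1), (g2 K (t + 1) : ℝ) ≤ K * (4 * q + 1) := by
            exact_mod_cast sum_g2 K (4 * q + 1)
          have k3 : ∑ x ∈ SS e m q, (g2 K (wv x j + 1) : ℝ) ≤
              (4 * q + 1) ^ (e + 3) * K := by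
            refine k1.trans ?_
            calc _ ≤ (4 * (q : ℝ) + 1) ^ (e + 2) * (K * (4 * q + 1)) :=
                  mul_le_mul_of_nonneg_left k2 (by positivity)
              _ = _ := by ring
          have k4 : s ^ 2 * (16 * A) * ∑ x ∈ SS e m q, (g2 K (wv x j + 1) : ℝ) ≤
              s ^ 2 * (16 * A) * ((4 * q + 1) ^ (e + 3) * K) :=
            mul_le_mul_of_nonneg_left k3 (by positivity)
          have k5 : ((SS e m q).card : ℝ) * (s ^ 2 * B) ≤
              (4 * q + 1) ^ (e + 3) * (s ^ 2 * B) :=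
            mul_le_mul_of_nonneg_right hcS (by positivity)
          calc _ ≤ (4 * (q : ℝ) + 1) ^ (e + 3) * (s ^ 2 * B) +
                s ^ 2 * (16 * A) * ((4 * q + 1) ^ (e + 3) * K) := add_le_add k5 k4
            _ = _ := by ring
      _ ≤ _ := by
          rw [Finset.sum_const, nsmul_eq_mul]
          calc _ ≤ ((e : ℝ) + 3) * ((4 * q + 1) ^ (e + 3) * (s ^ 2 * (B + 16 * A * K))) :=
                mul_le_mul_of_nonneg_right hcE (by positivity)
            _ = _ := by ring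
  refine (mul_le_mul_of_nonneg_left h6 hβ0.le).trans ?_
  have h9 : (4 * (q : ℝ) + 1) ^ (e + 3) ≤ 5 ^ (e + 3) * (q : ℝ) ^ (e + 3) := by
    rw [← mul_pow]
    exact pow_le_pow_left₀ (by positivity) (by linarith) _
  have h10 : β * (B + 16 * A * K) = β / (q : ℝ) ^ 2 + 288 * (e + 3) ^ 4 * (K ^ 3 * κ ^ 2) +
      2 * N ^ 2 := by
    rw [hB, hA]
    field_simp
    ring
  have h11 : (q : ℝ) ^ (e + 3) * (β / (q : ℝ) ^ 2 + 288 * (e + 3) ^ 4 * (K ^ 3 * κ ^ 2) +
      2 * N ^ 2) ≤ (1 + 288 * (e + 3) ^ 4 + 2 * N ^ 2) * (β * (q : ℝ) ^ (e + 1)) := by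
    have hqe : 0 < (q : ℝ) ^ (e + 1) := by positivity
    have e1 : (q : ℝ) ^ (e + 3) * (β / (q : ℝ) ^ 2) = β * (q : ℝ) ^ (e + 1) := by
      field_simp
      ring
    have e2 : (q : ℝ) ^ (e + 3) * (K ^ 3 * κ ^ 2) ≤ β * (q : ℝ) ^ (e + 1) := by
      calc _ = (K ^ 3 * κ ^ 2 * (q : ℝ) ^ 2) * (q : ℝ) ^ (e + 1) := by ring
        _ ≤ _ := mul_le_mul_of_nonneg_right hβ hqe.le
    have e3 : (q : ℝ) ^ (e + 3) ≤ β * (q : ℝ) ^ (e + 1) := by
      calc _ = (q : ℝ) ^ 2 * (q : ℝ) ^ (e + 1) := by ring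
        _ ≤ _ := mul_le_mul_of_nonneg_right hqβ hqe.le
    have e4 := mul_le_mul_of_nonneg_left e2
      (show (0 : ℝ) ≤ 288 * ((e : ℝ) + 3) ^ 4 by positivity)
    have e5 := mul_le_mul_of_nonneg_left e3 (show (0 : ℝ) ≤ 2 * (N : ℝ) ^ 2 by positivity)
    calc _ = (q : ℝ) ^ (e + 3) * (β / (q : ℝ) ^ 2) +
          288 * (e + 3) ^ 4 * ((q : ℝ) ^ (e + 3) * (K ^ 3 * κ ^ 2)) +
          2 * N ^ 2 * (q : ℝ) ^ (e + 3) := by ring
      _ ≤ β * (q : ℝ) ^ (e + 1) + 288 * (e + 3) ^ 4 * (β * (q : ℝ) ^ (e + 1)) +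
          2 * N ^ 2 * (β * (q : ℝ) ^ (e + 1)) := by linarith
      _ = _ := by ring
  calc β * ((4 * q + 1) ^ (e + 3) * ((e + 3) * (s ^ 2 * (B + 16 * A * K)))) =
        (4 * (q : ℝ) + 1) ^ (e + 3) * ((e + 3) * (s ^ 2 * (β * (B + 16 * A * K)))) := by ring
    _ ≤ (5 ^ (e + 3) * (q : ℝ) ^ (e + 3)) * ((e + 3) *
        (s ^ 2 * (β * (B + 16 * A * K)))) := by
        refine mul_le_mul_of_nonneg_right h9 ?_
        have : 0 ≤ β * (B + 16 * A * K) := mul_nonneg hβ0.le (by positivity)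
        positivity
    _ = 5 ^ (e + 3) * (e + 3) * s ^ 2 * ((q : ℝ) ^ (e + 3) *
        (β / (q : ℝ) ^ 2 + 288 * (e + 3) ^ 4 * (K ^ 3 * κ ^ 2) + 2 * N ^ 2)) := by
        rw [h10]; ring
    _ ≤ 5 ^ (e + 3) * (e + 3) * s ^ 2 * ((1 + 288 * (e + 3) ^ 4 + 2 * N ^ 2) *
        (β * (q : ℝ) ^ (e + 1))) := mul_le_mul_of_nonneg_left h11 (by positivity)
    _ = _ := by unfold CE; ring

end

end Pool.Agent.Q206.YM
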