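import Mathlib
import Pool.Agent.Q206.YM.Energy

/-!
# The response to the shift
-/

open MeasureTheory Matrix Filter
open scoped Matrix.Norms.Frobenius Topology
open Pool.Agent.H906R3.YM hiding Pl
open Pool.Agent.W793.YM Pool.Agent.TH618.YM Pool.Agent.Y14

namespace Pool.Agent.Q206.YM

set_option linter.unusedSectionVars false
set_option linter.unusedVariables false

noncomputable section

section pt

variable {G : Type*} [Group G] [TopologicalSpace G] [IsTopologicalGroup G] [CompactSpace G]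
  [SecondCountableTopology G] [MeasurableSpace G] [BorelSpace G] {N n : ℕ} {L : LD G N n}
  {e m : ℕ} [NeZero m] {q : ℕ}

variable (L) in
/-- the error of the response of a segment -/
def EH (q : ℕ) (U : Ed (e + 3) (2 * m) → G) (g : G) (y : Fin (e + 3) → ZMod (2 * m)) (r : ℕ) : ℝ :=
  ∑ k ∈ Finset.range r, 2 * kk q (y + k • eT 0) *
    dd L (g * tp eT U y (List.replicate k 0)) (TH U (y + k • eT 0))

lemma EH_succ (U : Ed (e + 3) (2 * m) → G) (g : G) (y : Fin (e + 3) → ZMod (2 * m)) (r : ℕ) :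
    EH L q U g y (r + 1) = 2 * kk q y * dd L g (TH U y) +
      EH L q U (g * U (y, 0)) (y + eT 0) r := by
  unfold EH
  rw [Finset.sum_range_succ', zero_smul, add_zero, add_comm]
  congr 1
  · rw [List.replicate_zero, tp_nil, mul_one]
  · refine Finset.sum_congr rfl fun k _ => ?_
    rw [add_smul, one_smul, add_comm (k • eT 0), add_assoc, List.replicate_succ, tp_cons,
      mul_assoc g]

/-- the response of a segment -/
lemma resp_seg (a : Fin n) (s : ℝ) (U : Ed (e + 3) (2 * m) → G) (g : G)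
    (y : Fin (e + 3) → ZMod (2 * m)) (r : ℕ) :
    dd L (g * tp eT (PH L q a s U) y (List.replicate r 0))
      (L.ex a (s * KK q y r) * (g * tp eT U y (List.replicate r 0))) ≤ |s| * EH L q U g y r := by
  induction r generalizing g y with
  | zero =>
    unfold KK EH
    simp only [List.replicate_zero, tp_nil, Finset.range_zero, Finset.sum_empty, mul_zero,
      L.ex_zero, one_mul, dd_self, le_refl]
  | succ r ih =>
    rw [KK_succ, EH_succ, List.replicate_succ, tp_cons, tp_cons]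
    have e1 : PH L q a s U (y, 0) = hH L q a s U y * U (y, 0) := by
      unfold PH
      rw [if_pos rfl]
    rw [e1]
    obtain ⟨P, hP⟩ : ∃ P, P = tp eT (PH L q a s U) (y + eT 0) (List.replicate r 0) := ⟨_, rfl⟩
    obtain ⟨P', hP'⟩ : ∃ P', P' = tp eT U (y + eT 0) (List.replicate r 0) := ⟨_, rfl⟩
    have ih' := ih (g * U (y, 0)) (y + eT 0)
    rw [← hP, ← hP'] at ih' ⊢
    obtain ⟨E, hE⟩ : ∃ E, E = L.ex a (s * KK q (y + eT 0) r) := ⟨_, rfl⟩
    obtain ⟨E0, hE0⟩ : ∃ E0, E0 = L.ex a (s * kk q y) := ⟨_, rfl⟩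
    rw [← hE] at ih'
    rw [mul_add, L.ex_add, ← hE, ← hE0]
    have e2 : g * (hH L q a s U y * U (y, 0) * P) =
        (g * hH L q a s U y * g⁻¹) * (g * U (y, 0) * P) := by group
    have e3 : E0 * E * (g * (U (y, 0) * P')) = E0 * (E * (g * U (y, 0) * P')) := by group
    rw [e2, e3]
    refine (dd_tri _ ((g * hH L q a s U y * g⁻¹) * (E * (g * U (y, 0) * P'))) _).trans ?_
    rw [dd_lmul, dd_rmul]
    have h3 : dd L (g * hH L q a s U y * g⁻¹) E0 ≤ |s| * (2 * kk q y * dd L g (TH U y)) := by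
      have e4 : g * hH L q a s U y * g⁻¹ = (g * (TH U y)⁻¹) * E0 * (g * (TH U y)⁻¹)⁻¹ := by
        unfold hH
        rw [hE0]
        group
      rw [e4, dd_comm]
      refine (dd_conj _ _).trans ?_
      rw [← dd_dv]
      have h4 : dv L E0 ≤ |s| * kk q y := by
        rw [hE0]
        refine (dv_ex a _).trans (le_of_eq ?_)
        rw [abs_mul, abs_of_nonneg (kk_nonneg q y)]
      have h5 := mul_le_mul_of_nonneg_right h4 (dd_nonneg (L := L) g (TH U y))
      linarith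
    rw [mul_add]
    linarith

lemma tp_PH_of {a : Fin n} {s : ℝ} {U : Ed (e + 3) (2 * m) → G}
    {x : Fin (e + 3) → ZMod (2 * m)} {w : List (Fin (e + 3))}
    (h : ∀ w1 w2, w = w1 ++ 0 :: w2 → kk q (x + dsp eT w1) = 0) :
    tp eT (PH L q a s U) x w = tp eT U x w := by
  refine tp_congr fun f hf => PH_eq ?_
  rintro ⟨h1, h2⟩
  obtain ⟨w1, w2, h3, h4⟩ := mem_lk hf
  rw [h1] at h3
  rw [h4] at h2
  exact h2 (h w1 w2 h3)

lemma tp_PH_hi (hq : 1 ≤ q) (a : Fin n) (s : ℝ) (U : Ed (e + 3) (2 * m) → G)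
    {c w : List (Fin (e + 3))} (hc : 4 * q ≤ c.count 1) (hw : (c ++ w).count 1 < 2 * m) :
    tp eT (PH L q a s U) (dsp eT c) w = tp eT U (dsp eT c) w := by
  refine tp_PH_of fun w1 w2 h => ?_
  rw [← dsp_append]
  rw [h, List.count_append, List.count_append] at hw
  exact kk_hi hq (by rw [List.count_append]; omega) (by rw [List.count_append]; omega)

lemma tp_PH_rt (hq : 1 ≤ q) (a : Fin n) (s : ℝ) (U : Ed (e + 3) (2 * m) → G)
    {c w : List (Fin (e + 3))} (hc : 2 * q ≤ c.count 0) (hw : (c ++ w).count 0 < 2 * m) :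
    tp eT (PH L q a s U) (dsp eT c) w = tp eT U (dsp eT c) w := by
  refine tp_PH_of fun w1 w2 h => ?_
  rw [← dsp_append]
  rw [h, List.count_append, List.count_append] at hw
  exact kk_rt hq (by rw [List.count_append]; omega) (by rw [List.count_append]; omega)

lemma tp_PH_dir (a : Fin n) (s : ℝ) (U : Ed (e + 3) (2 * m) → G)
    (x : Fin (e + 3) → ZMod (2 * m)) {i : Fin (e + 3)} (hi : i ≠ 0) (k : ℕ) :
    tp eT (PH L q a s U) x (List.replicate k i) = tp eT U x (List.replicate k i) := by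
  refine tp_congr fun f hf => PH_eq fun h => hi ?_
  rw [← (mem_lk_rep hf).1]
  exact h.1

lemma tp_PH_cb (hq : 1 ≤ q) (a : Fin n) (s : ℝ) (U : Ed (e + 3) (2 * m) → G)
    {x : Fin (e + 3) → ZMod (2 * m)} (hx : x 1 = 0) (v : Fin (e + 3) → ℕ) :
    tp eT (PH L q a s U) x (cb v) = tp eT U x (cb v) := by
  refine tp_congr fun f hf => PH_eq fun h => ?_
  obtain ⟨k, _, hk⟩ := cb_lk0 hf h.1
  refine h.2 (kk_axis hq one_ne ?_)
  rw [hk, Pi.add_apply, hx]
  have h1 : (k • (eT 0 : Fin (e + 3) → ZMod (2 * m))) 1 = 0 := by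
    simp [eT]
  rw [h1, add_zero]

lemma tp_PH_T (a : Fin n) (s : ℝ) (U : Ed (e + 3) (2 * m) → G)
    (x : Fin (e + 3) → ZMod (2 * m)) :
    tp eT (PH L q a s U) x (Tq e q) = tp eT U x (Tq e q) := tp_PH_dir a s U x last_ne0 _

lemma tp_PH_TA (hq : 1 ≤ q) (a : Fin n) (s : ℝ) (U : Ed (e + 3) (2 * m) → G)
    (v : Fin (e + 3) → ℕ) :
    tp eT (PH L q a s U) 0 (Tq e q ++ cb v) = tp eT U 0 (Tq e q ++ cb v) := by
  rw [tp_append, tp_append, tp_PH_T, zero_add, tp_PH_cb hq a s U dsp_Tq1]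

lemma tp_PH_P0 (hq : 1 ≤ q) (hqm : 5 * q < 2 * m) (a : Fin n) (s : ℝ)
    (U : Ed (e + 3) (2 * m) → G) :
    tp eT (PH L q a s U) 0 (Tq e q ++ P0 e q) = tp eT U 0 (Tq e q ++ P0 e q) := by
  have hc := count_TP0 (e := e) (q := q) 1
  unfold P0 at hc ⊢
  rw [← List.append_assoc] at hc ⊢
  rw [tp3, tp3, tp_PH_T, tp_PH_dir a s U _ one_ne, tp_PH_hi hq a s U _ (by omega)]
  rw [List.count_append, List.count_replicate_self]
  omega

lemma tp_PH_Q (hq : 1 ≤ q) (hqm : 5 * q < 2 * m) (a : Fin n) (s : ℝ)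
    (U : Ed (e + 3) (2 * m) → G) (o : OO e q) :
    tp eT (PH L q a s U) 0 (Tq e q ++ QQ o) = tp eT U 0 (Tq e q ++ QQ o) := by
  have hc := count_TQQ (e := e) (q := q) o 1
  have e1 : Tq e q ++ QQ o = (Tq e q ++ cb (vA o)) ++ List.replicate (rv o) 1 ++
      (List.replicate (rr o) 0 ++ cb (vB o)) := by
    unfold QQ
    simp only [List.append_assoc]
  rw [e1] at hc ⊢
  rw [tp3, tp3, tp_PH_TA hq, tp_PH_dir a s U _ one_ne, tp_PH_hi hq a s U _ (by omega)]
  rw [List.count_append, List.count_append, List.count_replicate_self, count_cb, vA_one]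
  unfold rv
  have := (o.2.2.2 0).2
  omega

lemma gQ_PH (hq : 1 ≤ q) (hqm : 5 * q < 2 * m) (a : Fin n) (s : ℝ)
    (U : Ed (e + 3) (2 * m) → G) (o : OO e q) : gQ o (PH L q a s U) = gQ o U := by
  unfold gQ
  rw [tp_PH_Q hq hqm, tp_PH_P0 hq hqm]

lemma gP_PH (hq : 1 ≤ q) (hqm : 5 * q < 2 * m) (a : Fin n) (s : ℝ)
    (U : Ed (e + 3) (2 * m) → G) (o : OO e q) :
    dd L (gP o (PH L q a s U)) (L.ex a (s * KK q (yA m o) (rr o)) * gP o U) ≤
      |s| * EH L q U (tp eT U 0 (Tq e q ++ cb (vA o))) (yA m o) (rr o) := by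
  have hc := count_TPP (e := e) (q := q) o 0
  have e1 : Tq e q ++ PP o = (Tq e q ++ cb (vA o)) ++ List.replicate (rr o) 0 ++
      (List.replicate (rv o) 1 ++ cb (vB o)) := by
    unfold Y14.PP
    simp only [List.append_assoc]
  have h1 : tp eT (PH L q a s U) 0 (Tq e q ++ PP o) = tp eT U 0 (Tq e q ++ cb (vA o)) *
      tp eT (PH L q a s U) (yA m o) (List.replicate (rr o) 0) *
      tp eT U (dsp eT ((Tq e q ++ cb (vA o)) ++ List.replicate (rr o) 0))
        (List.replicate (rv o) 1 ++ cb (vB o)) := by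
    rw [e1] at hc ⊢
    rw [tp3, tp_PH_TA hq, tp_PH_rt (L := L) hq a s U (c := (Tq e q ++ cb (vA o)) ++
      List.replicate (rr o) 0) ?_ (by omega)]
    · rfl
    · rw [List.count_append, List.count_append, List.count_replicate_self, count_cb, vA_zero]
      unfold rr
      have := (o.1).2
      omega
  have h2 : tp eT U 0 (Tq e q ++ PP o) = tp eT U 0 (Tq e q ++ cb (vA o)) *
      tp eT U (yA m o) (List.replicate (rr o) 0) *
      tp eT U (dsp eT ((Tq e q ++ cb (vA o)) ++ List.replicate (rr o) 0))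
        (List.replicate (rv o) 1 ++ cb (vB o)) := by
    rw [e1, tp3]
    rfl
  unfold gP
  rw [tp_PH_P0 hq hqm, h1, h2]
  obtain ⟨B, hB⟩ : ∃ B, B = tp eT U (dsp eT ((Tq e q ++ cb (vA o)) ++ List.replicate (rr o) 0))
    (List.replicate (rv o) 1 ++ cb (vB o)) := ⟨_, rfl⟩
  obtain ⟨W, hW⟩ : ∃ W, W = (tp eT U 0 (Tq e q ++ P0 e q))⁻¹ := ⟨_, rfl⟩
  obtain ⟨A, hA⟩ : ∃ A, A = tp eT U 0 (Tq e q ++ cb (vA o)) := ⟨_, rfl⟩
  rw [← hB, ← hW, ← hA]
  have e2 : L.ex a (s * KK q (yA m o) (rr o)) *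
      (A * tp eT U (yA m o) (List.replicate (rr o) 0) * B * W) =
      L.ex a (s * KK q (yA m o) (rr o)) *
      (A * tp eT U (yA m o) (List.replicate (rr o) 0)) * B * W := by group
  rw [e2, dd_rmul, dd_rmul]
  exact resp_seg a s U A (yA m o) (rr o)

end pt

variable {G : Type*} [Group G] [TopologicalSpace G] [IsTopologicalGroup G] [CompactSpace G]
  [SecondCountableTopology G] [MeasurableSpace G] [BorelSpace G] (μ : Measure G)
  [IsProbabilityMeasure μ] [μ.IsMulLeftInvariant] [μ.IsMulRightInvariant] [μ.IsInvInvariant]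
  {N n : ℕ} {L : LD G N n} {e m : ℕ} [NeZero m] {q : ℕ} {β : ℝ}

/-! ### sorted words -/

lemma SC_rep (hN : 1 ≤ N) {ρ nn : ℕ} {u : ℝ} (hu : 0 ≤ u) (hR : RB μ L (e + 3) m β ρ u)
    {w : List (Fin (e + 3))} {b : ℝ} (h : SC μ L m β w b) (i : Fin (e + 3))
    (hc : ∀ k, (w ++ List.replicate nn i).count k ≤ ρ) :
    SC μ L m β (w ++ List.replicate nn i) (b + ((e + 3 : ℕ) : ℝ) * u) := by
  have h1 : ∀ k, w.count k ≤ ρ := fun k => by
    have := hc k; rw [List.count_append] at this; omega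
  have h2 : nn ≤ ρ := by
    have := hc i; rw [List.count_append, List.count_replicate_self] at this; omega
  refine (Srt_rep μ hN hu hR h2 h1 h i).mono μ (fun k => ?_) le_rfl
  rw [List.count_append, List.count_replicate]
  congr 1
  by_cases hk : k = i
  · subst hk; simp
  · have h' : ¬i = k := fun h1 => hk h1.symm
    simp [hk, h']

lemma SC_cb (hN : 1 ≤ N) {ρ : ℕ} {u : ℝ} (hu : 0 ≤ u) (hR : RB μ L (e + 3) m β ρ u)
    {w : List (Fin (e + 3))} {b : ℝ} (h : SC μ L m β w b) (v' : Fin (e + 3) → ℕ)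
    (hc : ∀ k, (w ++ Y14.cb v').count k ≤ ρ) :
    SC μ L m β (w ++ Y14.cb v') (b + ((e + 3 : ℕ) : ℝ) * (((e + 3 : ℕ) : ℝ) * u)) := by
  have h1 : ∀ k, w.count k + v' k ≤ ρ := fun k => by
    have := hc k; rwa [List.count_append, count_cb] at this
  refine (Srt_cb μ hN hu hR h1 h).mono μ (fun k => ?_) le_rfl
  rw [List.count_append, count_cb]

lemma SC_T (hN : 1 ≤ N) {u : ℝ} (hu : 0 ≤ u) (hR : RB μ L (e + 3) m β (5 * q) u) :
    SC μ L m β (Tq e q) (((e + 3 : ℕ) : ℝ) * u) := by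
  have h := SC_rep μ (L := L) hN (nn := 2 * q) hu hR (SC.nil μ)
    (Fin.last (e + 2)) (fun k => by
      rw [List.nil_append]
      have := count_Tq (e := e) (q := q) k
      unfold Tq at this
      rw [this]
      split_ifs <;> omega)
  rw [List.nil_append, zero_add] at h
  exact h

lemma SC_TA (hN : 1 ≤ N) {u : ℝ} (hu : 0 ≤ u) (hR : RB μ L (e + 3) m β (5 * q) u)
    {v : Fin (e + 3) → ℕ} (hv : ∀ k, (Tq e q ++ cb v).count k ≤ 5 * q) :
    SC μ L m β (Tq e q ++ cb v) (((e + 3 : ℕ) : ℝ) * u +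
      ((e + 3 : ℕ) : ℝ) * (((e + 3 : ℕ) : ℝ) * u)) :=
  SC_cb μ hN hu hR (SC_T μ hN hu hR) v hv

/-- the error of the segments -/
lemma seg_en (hN : 1 ≤ N) {u : ℝ} (hu : 0 ≤ u) (hR : RB μ L (e + 3) m β (5 * q) u)
    (hqm : 5 * q < 2 * m) {K : ℕ} (hK : 5 * q < 2 ^ K) (hKm : K ≤ 2 * m) (o : OO e q) {k : ℕ}
    (hk : k ≤ 3 * q) :
    en μ L β (fun U : Ed (e + 3) (2 * m) → G =>
      dd L (tp eT U 0 (Tq e q ++ cb (vA o)) * tp eT U (yA m o) (List.replicate k 0))
        (TH U (yA m o + k • eT 0))) ≤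
      (((e : ℝ) + 6) + K * (e + 2)) * (((e + 3 : ℕ) : ℝ) * u) := by
  have hc := seg_le o hk
  have h1 := SC_rep μ (L := L) hN hu hR (SC_TA μ hN hu hR (count_le_of hc)) 0 hc
  obtain ⟨v, hv⟩ : ∃ v : Fin (e + 3) → ℕ,
    v = fun j => ((Tq e q ++ cb (vA o)) ++ List.replicate k 0).count j := ⟨_, rfl⟩
  have hv5 : ∀ j, v j ≤ 5 * q := fun j => by rw [hv]; exact hc j
  have h2 : ∀ U : Ed (e + 3) (2 * m) → G, TH U (yA m o + k • eT 0) =
      tp eT U 0 (pw (2 * m) v) := by
    intro U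
    unfold TH
    have h3 : wv (yA m o + k • eT 0) = v := by
      funext j
      rw [yA_add, wv_dsp (by have := hc j; omega), hv]
    rw [h3]
  have h4 : ∀ U : Ed (e + 3) (2 * m) → G,
      tp eT U 0 (Tq e q ++ cb (vA o)) * tp eT U (yA m o) (List.replicate k 0) =
      tp eT U 0 ((Tq e q ++ cb (vA o)) ++ List.replicate k 0) := by
    intro U
    rw [tp2 U (Tq e q ++ cb (vA o))]
    rfl
  simp only [h2, h4]
  have h6 := Srt_pw μ (L := L) (e := e) (m := m) (β := β) hN hu hR hKm (v := v) hv5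
    (fun j _ => lt_of_le_of_lt (hv5 j) hK)
  have h7 : Srt μ L β (0 : Fin (e + 3) → ZMod (2 * m))
      ((Tq e q ++ cb (vA o)) ++ List.replicate k 0) v _ := Srt.mono μ h1 (fun j => by rw [hv]) le_rfl
  refine (Srt.cmp μ h7 h6).trans (le_of_eq ?_)
  push_cast
  ring

/-- the loops are close to the identity -/
lemma gP_en (hN : 1 ≤ N) {u : ℝ} (hu : 0 ≤ u) (hR : RB μ L (e + 3) m β (5 * q) u) (o : OO e q) :
    en μ L β (fun U : Ed (e + 3) (2 * m) → G => dv L (gP o U)) ≤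
      (3 * (e : ℝ) + 14) * (((e + 3 : ℕ) : ℝ) * u) := by
  have hc := count_TPP (e := e) (q := q) o
  have e1 : Tq e q ++ PP o = (((Tq e q ++ cb (vA o)) ++ List.replicate (rr o) 0) ++
      List.replicate (rv o) 1) ++ cb (vB o) := by
    unfold Y14.PP
    simp only [List.append_assoc]
  have hc' := hc
  rw [e1] at hc'
  have c1 := count_le_of hc'
  have c2 := count_le_of c1
  have c3 := count_le_of c2
  have s1 := SC_TA μ (L := L) hN hu hR c3
  have s2 := SC_rep μ hN hu hR s1 0 c2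
  have s3 := SC_rep μ hN hu hR s2 1 c1
  have s4 := SC_cb μ hN hu hR s3 (vB o) hc'
  rw [← e1] at s4
  have hz := count_TP0 (e := e) (q := q)
  have e2 : Tq e q ++ P0 e q = (Tq e q ++ List.replicate (5 * q) 1) ++ cb (vZ e q) := by
    unfold P0
    simp only [List.append_assoc]
  have hz' := hz
  rw [e2] at hz'
  have t1 := SC_rep μ (L := L) hN hu hR (SC_T μ hN hu hR) 1 (count_le_of hz')
  have t2 := SC_cb μ hN hu hR t1 (vZ e q) hz'
  rw [← e2] at t2
  have hf := SC.cmp μ s4 t2 fun k => by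
    rw [List.count_append, List.count_append, count_PP, count_P0]
  unfold gP
  simp only [← dd_dv]
  refine hf.trans (le_of_eq ?_)
  push_cast
  ring

lemma gQ_en (hN : 1 ≤ N) {u : ℝ} (hu : 0 ≤ u) (hR : RB μ L (e + 3) m β (5 * q) u) (o : OO e q) :
    en μ L β (fun U : Ed (e + 3) (2 * m) → G => dv L (gQ o U)) ≤
      (3 * (e : ℝ) + 14) * (((e + 3 : ℕ) : ℝ) * u) := by
  have hc := count_TQQ (e := e) (q := q) o
  have e1 : Tq e q ++ QQ o = (((Tq e q ++ cb (vA o)) ++ List.replicate (rv o) 1) ++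
      List.replicate (rr o) 0) ++ cb (vB o) := by
    unfold QQ
    simp only [List.append_assoc]
  have hc' := hc
  rw [e1] at hc'
  have c1 := count_le_of hc'
  have c2 := count_le_of c1
  have c3 := count_le_of c2
  have s1 := SC_TA μ (L := L) hN hu hR c3
  have s2 := SC_rep μ hN hu hR s1 1 c2
  have s3 := SC_rep μ hN hu hR s2 0 c1
  have s4 := SC_cb μ hN hu hR s3 (vB o) hc'
  rw [← e1] at s4
  have hz := count_TP0 (e := e) (q := q)
  have e2 : Tq e q ++ P0 e q = (Tq e q ++ List.replicate (5 * q) 1) ++ cb (vZ e q) := by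
    unfold P0
    simp only [List.append_assoc]
  have hz' := hz
  rw [e2] at hz'
  have t1 := SC_rep μ (L := L) hN hu hR (SC_T μ hN hu hR) 1 (count_le_of hz')
  have t2 := SC_cb μ hN hu hR t1 (vZ e q) hz'
  rw [← e2] at t2
  have hf := SC.cmp μ s4 t2 fun k => by
    rw [List.count_append, List.count_append, count_QQ, count_P0]
  unfold gQ
  simp only [← dd_dv]
  refine hf.trans (le_of_eq ?_)
  push_cast
  ring

end

end Pool.Agent.Q206.YM
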