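import Mathlib
import Pool.Agent.Q206.YM.Psi

/-!
# Lower bound of the variance of the observable
-/

open MeasureTheory Matrix Filter
open scoped Matrix.Norms.Frobenius Topology
open Pool.Agent.H906R3.YM hiding Pl
open Pool.Agent.W793.YM Pool.Agent.TH618.YM Pool.Agent.Y14

namespace Pool.Agent.Q206.YM

set_option linter.unusedSectionVars false
set_option linter.unusedVariables false

noncomputable section

variable {G : Type*} [Group G] [TopologicalSpace G] [IsTopologicalGroup G] [CompactSpace G]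
  [SecondCountableTopology G] [MeasurableSpace G] [BorelSpace G] (μ : Measure G)
  [IsProbabilityMeasure μ] [μ.IsMulLeftInvariant] [μ.IsMulRightInvariant] [μ.IsInvInvariant]
  {N n : ℕ} {L : LD G N n} {e m : ℕ} [NeZero m] {q : ℕ} {β : ℝ}

lemma ErH_neg (s : ℝ) (U : Ed (e + 3) (2 * m) → G) : ErH L q (-s) U = ErH L q s U := by
  unfold ErH
  rw [abs_neg]

/-- the union bound -/
lemma union_pt (hn : 1 ≤ n) (hq : 1 ≤ q) (hqm : 5 * q < 2 * m) {C0 : ℝ} (hC0 : 0 ≤ C0)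
    (hcar : ∀ g : G, dv L g ^ 2 ≤ ∑ a, fi L a g ^ 2 + C0 * dv L g ^ 4) {s : ℝ} (hs : 0 < s)
    {y : ℝ} (hy : y = s * Kb e q m) (hy0 : 0 < y) (c : ℝ) {t : ℝ} (ht : t = 1 / (16 * n) * y)
    (U : Ed (e + 3) (2 * m) → G) :
    1 ≤ Wd L q c t U + ∑ a : Fin n, (min 1 (Wd L q c t (PH L q a s U)) +
      min 1 (Wd L q c t (PH L q a (-s) U))) + (s / t * ErH L q s U) ^ 2 + 1 / y * Nr L C0 q U := by
  have hn0 : (1 : ℝ) ≤ n := by exact_mod_cast hn
  have ht0 : 0 < t := by rw [ht]; positivity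
  by_contra hcon
  push Not at hcon
  have w0 : 0 ≤ Wd L q c t U := sq_nonneg _
  have w1 : ∀ V : Ed (e + 3) (2 * m) → G, 0 ≤ min 1 (Wd L q c t V) :=
    fun V => le_min zero_le_one (sq_nonneg _)
  have w2 : 0 ≤ ∑ a : Fin n, (min 1 (Wd L q c t (PH L q a s U)) +
      min 1 (Wd L q c t (PH L q a (-s) U))) :=
    Finset.sum_nonneg fun a _ => add_nonneg (w1 _) (w1 _)
  have w3 : 0 ≤ (s / t * ErH L q s U) ^ 2 := sq_nonneg _
  have w4 : 0 ≤ 1 / y * Nr L C0 q U := mul_nonneg (by positivity) (Nr_nonneg U)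
  have b0 : |‖psi L q U‖ - c| ≤ t := le_of_sq_div ht0 (by
    have : Wd L q c t U < 1 := by linarith
    exact this)
  have b1 : ∀ a : Fin n, |‖psi L q (PH L q a s U)‖ - c| ≤ t ∧
      |‖psi L q (PH L q a (-s) U)‖ - c| ≤ t := by
    intro a
    have h1 : min 1 (Wd L q c t (PH L q a s U)) + min 1 (Wd L q c t (PH L q a (-s) U)) < 1 := by
      refine lt_of_le_of_lt ?_ (by linarith : ∑ a : Fin n, (min 1 (Wd L q c t (PH L q a s U)) +
        min 1 (Wd L q c t (PH L q a (-s) U))) < 1)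
      exact Finset.single_le_sum (f := fun a : Fin n => min 1 (Wd L q c t (PH L q a s U)) +
        min 1 (Wd L q c t (PH L q a (-s) U))) (fun a _ => add_nonneg (w1 _) (w1 _))
        (Finset.mem_univ a)
    have h2 : min 1 (Wd L q c t (PH L q a s U)) < 1 := by
      have := w1 (PH L q a (-s) U); linarith
    have h3 : min 1 (Wd L q c t (PH L q a (-s) U)) < 1 := by
      have := w1 (PH L q a s U); linarith
    rw [min_lt_iff] at h2 h3
    exact ⟨le_of_sq_div ht0 (h2.resolve_left (lt_irrefl _)),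
      le_of_sq_div ht0 (h3.resolve_left (lt_irrefl _))⟩
  have b2 : s * ErH L q s U ≤ t := by
    have h1 : (s / t * ErH L q s U) ^ 2 < 1 := by linarith
    have h2 : 0 ≤ s / t * ErH L q s U := mul_nonneg (by positivity) (ErH_nonneg _ _)
    rw [sq_lt_one_iff₀ h2] at h1
    have h3 : s / t * ErH L q s U = s * ErH L q s U / t := by ring
    rw [h3, div_lt_one ht0] at h1
    exact h1.le
  have b3 : ‖nr L (psi L q U)‖ ≤ y := by
    have h1 : 1 / y * Nr L C0 q U < 1 := by linarith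
    have h3 : 1 / y * Nr L C0 q U = Nr L C0 q U / y := by ring
    rw [h3, div_lt_one hy0] at h1
    exact (nr_psi hq hC0 hcar U).trans h1.le
  have ht2 : 1 / (8 * (n : ℝ)) * y = t + t := by
    rw [ht]; field_simp; norm_num
  have key : ∀ (A B : Mat N), ‖A - B‖ ≤ t → |‖A‖ - c| ≤ t → |‖B‖ - c| ≤ t + t := by
    intro A B h1 h2
    have h3 : |‖B‖ - ‖A‖| ≤ t := by
      rw [abs_sub_comm]
      exact (abs_norm_sub_norm_le A B).trans h1
    calc |‖B‖ - c| = |(‖B‖ - ‖A‖) + (‖A‖ - c)| := by ring_nf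
      _ ≤ |‖B‖ - ‖A‖| + |‖A‖ - c| := abs_add_le _ _
      _ ≤ t + t := add_le_add h3 h2
  refine det_contra (L := L) (M := psi L q U) (y := y) (c := c) (κ := 1 / (8 * n)) hn hy0 rfl
    (b0.trans (by rw [ht2]; linarith)) (fun a => ?_) (fun a => ?_) b3
  · rw [ht2]
    refine key (psi L q (PH L q a s U)) _ ?_ (b1 a).1
    have h1 := psi_resp (L := L) hq hqm a s U
    rw [abs_of_pos hs, ← hy] at h1
    rw [← sub_sub]
    exact h1.trans b2
  · rw [ht2]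
    refine key (psi L q (PH L q a (-s) U)) _ ?_ (b1 a).2
    have h1 := psi_resp (L := L) hq hqm a (-s) U
    rw [abs_neg, abs_of_pos hs, neg_mul, ← hy, ErH_neg] at h1
    rw [← sub_sub]
    exact h1.trans b2

/-- the averaged union bound -/
lemma union_EX (hn : 1 ≤ n) (hq : 1 ≤ q) (hqm : 5 * q < 2 * m) {C0 : ℝ} (hC0 : 0 ≤ C0)
    (hcar : ∀ g : G, dv L g ^ 2 ≤ ∑ a, fi L a g ^ 2 + C0 * dv L g ^ 4) {s : ℝ} (hs : 0 < s)
    {y : ℝ} (hy : y = s * Kb e q m) (hy0 : 0 < y) (c : ℝ) {t : ℝ} (ht : t = 1 / (16 * n) * y)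
    {X : ℝ} (hX : ∀ a : Fin n, EX μ L β (fun U : Ed (e + 3) (2 * m) → G => XH L β q a s U) ≤ X)
    (hX' : ∀ a : Fin n, EX μ L β (fun U : Ed (e + 3) (2 * m) → G => XH L β q a (-s) U) ≤ X) :
    1 ≤ (1 + 6 * n) * EX μ L β (fun U : Ed (e + 3) (2 * m) → G => Wd L q c t U) + 6 * n * X +
      (s / t * en μ L β (fun U : Ed (e + 3) (2 * m) → G => ErH L q s U)) ^ 2 +
      1 / y * EX μ L β (fun U : Ed (e + 3) (2 * m) → G => Nr L C0 q U) := by
  have cW := Wd_cont (L := L) (e := e) (m := m) (q := q) c t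
  have cg : Continuous fun U : Ed (e + 3) (2 * m) → G => min 1 (Wd L q c t U) :=
    continuous_const.min cW
  have cgs : ∀ (a : Fin n) (s : ℝ), Continuous fun U : Ed (e + 3) (2 * m) → G =>
      min 1 (Wd L q c t (PH L q a s U)) := fun a s => cg.comp (PH_cont a s)
  have cS : Continuous fun U : Ed (e + 3) (2 * m) → G =>
      ∑ a : Fin n, (min 1 (Wd L q c t (PH L q a s U)) + min 1 (Wd L q c t (PH L q a (-s) U))) :=
    continuous_finsetSum _ fun a _ => (cgs a s).add (cgs a (-s))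
  have cE : Continuous fun U : Ed (e + 3) (2 * m) → G => (s / t * ErH L q s U) ^ 2 :=
    (continuous_const.mul (ErH_cont s)).pow 2
  have cN : Continuous fun U : Ed (e + 3) (2 * m) → G => 1 / y * Nr L C0 q U :=
    continuous_const.mul Nr_cont
  have c1 : Continuous fun U : Ed (e + 3) (2 * m) → G => Wd L q c t U +
      ∑ a : Fin n, (min 1 (Wd L q c t (PH L q a s U)) + min 1 (Wd L q c t (PH L q a (-s) U))) :=
    cW.add cS
  have c2 : Continuous fun U : Ed (e + 3) (2 * m) → G => Wd L q c t U +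
      ∑ a : Fin n, (min 1 (Wd L q c t (PH L q a s U)) + min 1 (Wd L q c t (PH L q a (-s) U))) +
      (s / t * ErH L q s U) ^ 2 := c1.add cE
  have c3 : Continuous fun U : Ed (e + 3) (2 * m) → G => Wd L q c t U +
      ∑ a : Fin n, (min 1 (Wd L q c t (PH L q a s U)) + min 1 (Wd L q c t (PH L q a (-s) U))) +
      (s / t * ErH L q s U) ^ 2 + 1 / y * Nr L C0 q U := c2.add cN
  have h := EX_mono μ (L := L) (β := β) (continuous_const (y := (1 : ℝ))) c3
    (union_pt hn hq hqm hC0 hcar hs hy hy0 c ht)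
  have c4 : ∀ a : Fin n, Continuous fun U : Ed (e + 3) (2 * m) → G =>
      min 1 (Wd L q c t (PH L q a s U)) + min 1 (Wd L q c t (PH L q a (-s) U)) :=
    fun a => (cgs a s).add (cgs a (-s))
  rw [EX_one, EX_add μ c2 cN, EX_add μ c1 cE, EX_add μ cW cS, EX_fsum μ _ c4, EX_smul] at h
  have h1 : ∀ a : Fin n, EX μ L β (fun U : Ed (e + 3) (2 * m) → G =>
      min 1 (Wd L q c t (PH L q a s U)) + min 1 (Wd L q c t (PH L q a (-s) U))) ≤
      6 * EX μ L β (fun U : Ed (e + 3) (2 * m) → G => Wd L q c t U) + 6 * X := by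
    intro a
    rw [EX_add μ (cgs a s) (cgs a (-s))]
    have k1 := tilt μ (L := L) (β := β) hq a s cg (fun U => le_min zero_le_one (sq_nonneg _))
      (fun U => min_le_left _ _)
    have k2 := tilt μ (L := L) (β := β) hq a (-s) cg (fun U => le_min zero_le_one (sq_nonneg _))
      (fun U => min_le_left _ _)
    have k3 : EX μ L β (fun U : Ed (e + 3) (2 * m) → G => min 1 (Wd L q c t U)) ≤
      EX μ L β (fun U : Ed (e + 3) (2 * m) → G => Wd L q c t U) :=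
      EX_mono μ cg cW fun U => min_le_right _ _
    have k4 := hX a
    have k5 := hX' a
    linarith
  have h2 : ∑ a : Fin n, EX μ L β (fun U : Ed (e + 3) (2 * m) → G =>
      min 1 (Wd L q c t (PH L q a s U)) + min 1 (Wd L q c t (PH L q a (-s) U))) ≤
      n * (6 * EX μ L β (fun U : Ed (e + 3) (2 * m) → G => Wd L q c t U) + 6 * X) := by
    calc _ ≤ ∑ _a : Fin n, (6 * EX μ L β (fun U : Ed (e + 3) (2 * m) → G => Wd L q c t U) +
          6 * X) := Finset.sum_le_sum fun a _ => h1 a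
      _ = _ := by rw [Finset.sum_const, Finset.card_univ, Fintype.card_fin, nsmul_eq_mul]
  have h3 : EX μ L β (fun U : Ed (e + 3) (2 * m) → G => (s / t * ErH L q s U) ^ 2) =
      (s / t * en μ L β (fun U : Ed (e + 3) (2 * m) → G => ErH L q s U)) ^ 2 := by
    have e1 : (fun U : Ed (e + 3) (2 * m) → G => (s / t * ErH L q s U) ^ 2) =
        fun U => (s / t) ^ 2 * ErH L q s U ^ 2 := by funext U; ring
    rw [e1, EX_smul, mul_pow, en_sq]
  rw [h3] at h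
  linarith

lemma CE_ge (e N : ℕ) : 1 ≤ CE e N := by
  unfold CE
  have h1 : (1 : ℝ) ≤ 5 ^ (e + 3) := one_le_pow₀ (by norm_num)
  have h2 : (1 : ℝ) ≤ (e : ℝ) + 3 := by
    have : (0 : ℝ) ≤ e := Nat.cast_nonneg e
    linarith
  have h3 : (1 : ℝ) ≤ 1 + 288 * ((e : ℝ) + 3) ^ 4 + 2 * N ^ 2 := by
    have : (0 : ℝ) ≤ 288 * ((e : ℝ) + 3) ^ 4 + 2 * N ^ 2 := by positivity
    linarith
  have h4 : (1 : ℝ) ≤ 5 ^ (e + 3) * ((e : ℝ) + 3) := one_le_mul_of_one_le_of_one_le h1 h2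
  exact one_le_mul_of_one_le_of_one_le h4 h3

/-- **lower bound of the variance** -/
theorem var_low (hn : 1 ≤ n) (hN : 1 ≤ N) (e : ℕ) {C0 : ℝ} (hC0 : 0 < C0)
    (hcar : ∀ g : G, dv L g ^ 2 ≤ ∑ a, fi L a g ^ 2 + C0 * dv L g ^ 4) :
    ∃ Y cv : ℝ, 1 ≤ Y ∧ 0 < cv ∧ ∀ (q K : ℕ) (β κ : ℝ), 1 ≤ q → 1 ≤ κ → 5 * q < 2 ^ K →
      (K : ℝ) ^ 3 * κ ^ 2 * (q : ℝ) ^ 2 * Y ≤ β → κ ^ 4 * (q : ℝ) ^ (e + 1) * Y ≤ β →
      ∀ (m : ℕ) [NeZero m], K ≤ 2 * m → 5 * q < 2 * m →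
      (∀ ρ : ℕ, ρ ≤ 2 ^ K → RB μ L (e + 3) m β ρ (κ * Real.sqrt (ρ / β))) → ∀ c : ℝ,
      cv * ((q : ℝ) ^ 2 / (β * (q : ℝ) ^ (e + 1))) ≤
        EX μ L β (fun U : Ed (e + 3) (2 * m) → G => (‖psi L q U‖ - c) ^ 2) := by
  have hn0 : (1 : ℝ) ≤ n := by exact_mod_cast hn
  have hN0 : (1 : ℝ) ≤ N := by exact_mod_cast hN
  have he0 : (0 : ℝ) ≤ e := Nat.cast_nonneg e
  have hCE := CE_ge e N
  obtain ⟨B1, hB1⟩ : ∃ B1 : ℝ, B1 = 2 ^ (e + 2) * (16 * n) *
    (((5 * (e : ℝ) + 26) + 2 * (e + 2)) * ((e + 3) * 3) + 1) := ⟨_, rfl⟩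
  obtain ⟨B2, hB2⟩ : ∃ B2 : ℝ, B2 = 2 ^ (e + 2) * (2 * Real.sqrt C0 *
    ((3 * (e : ℝ) + 14) * ((e + 3) * 3)) ^ 2) := ⟨_, rfl⟩
  have hB1p : 0 < B1 := by rw [hB1]; positivity
  have hB2p : 0 < B2 := by
    have : 0 < Real.sqrt C0 := Real.sqrt_pos.2 hC0
    rw [hB2]; positivity
  obtain ⟨K1, hK1⟩ : ∃ K1 : ℝ, K1 = 24 * n * CE e N := ⟨_, rfl⟩
  have hK1p : 0 < K1 := by rw [hK1]; positivity
  have hK11 : 1 ≤ K1 := by
    rw [hK1]
    nlinarith
  obtain ⟨Y, hY⟩ : ∃ Y : ℝ, Y = 4 * B1 ^ 2 + 16 * K1 * B2 ^ 2 + 1 := ⟨_, rfl⟩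
  have hY1 : 1 ≤ Y := by
    rw [hY]
    have : 0 ≤ 4 * B1 ^ 2 + 16 * K1 * B2 ^ 2 := by positivity
    linarith
  have hYp : 0 < Y := by linarith
  refine ⟨Y, (1 / (16 * n) * (1 / 2) ^ (e + 2)) ^ 2 / (K1 * (4 * (1 + 6 * n))), hY1,
    by positivity, fun q K β κ hq hκ hK hβ1 hβ2 m _ hKm hqm hR c => ?_⟩
  have hq1 : (1 : ℝ) ≤ q := by exact_mod_cast hq
  have hq0 : (0 : ℝ) < q := by linarith
  have hκ0 : 0 < κ := by linarith
  have hK0' : 1 ≤ K := by
    rcases Nat.eq_zero_or_pos K with h | h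
    · rw [h] at hK; omega
    · exact h
  have hKR : (1 : ℝ) ≤ K := by exact_mod_cast hK0'
  have hK3 : (1 : ℝ) ≤ (K : ℝ) ^ 3 := one_le_pow₀ hKR
  have hκ2 : (1 : ℝ) ≤ κ ^ 2 := one_le_pow₀ hκ
  have hβ0 : 0 < β := lt_of_lt_of_le (by positivity) hβ1
  have hqβ : (q : ℝ) ^ 2 ≤ β := by
    refine le_trans ?_ hβ1
    calc (q : ℝ) ^ 2 = 1 * 1 * (q : ℝ) ^ 2 * 1 := by ring
      _ ≤ (K : ℝ) ^ 3 * κ ^ 2 * (q : ℝ) ^ 2 * Y := by
        refine mul_le_mul (mul_le_mul_of_nonneg_right (mul_le_mul hK3 hκ2 zero_le_one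
          (by positivity)) (by positivity)) hY1 zero_le_one (by positivity)
  have hβ3 : (K : ℝ) ^ 3 * κ ^ 2 * (q : ℝ) ^ 2 ≤ β :=
    (le_mul_of_one_le_right (by positivity) hY1).trans hβ1
  have hm2 : 2 ≤ m := by omega
  obtain ⟨Q, hQ⟩ : ∃ Q : ℝ, Q = (q : ℝ) ^ (e + 1) := ⟨_, rfl⟩
  have hQ1 : 1 ≤ Q := by rw [hQ]; exact one_le_pow₀ hq1
  have hQp : 0 < Q := by linarith
  rw [← hQ] at hβ2
  obtain ⟨b, hb⟩ : ∃ b, b = Real.sqrt β := ⟨_, rfl⟩
  have hb0 : 0 < b := by rw [hb]; exact Real.sqrt_pos.2 hβ0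
  have hbb : b ^ 2 = β := by rw [hb]; exact Real.sq_sqrt hβ0.le
  -- the unit
  obtain ⟨u, hu⟩ : ∃ u, u = κ * Real.sqrt ((5 * q : ℕ) / β) := ⟨_, rfl⟩
  have hu0 : 0 ≤ u := by rw [hu]; positivity
  have hR5 : RB μ L (e + 3) m β (5 * q) u := by rw [hu]; exact hR _ hK.le
  obtain ⟨r, hr⟩ : ∃ r, r = κ * Real.sqrt (q / β) := ⟨_, rfl⟩
  have hr0 : 0 < r := by
    rw [hr]
    have : 0 < Real.sqrt ((q : ℝ) / β) := Real.sqrt_pos.2 (by positivity)
    positivity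
  have hr2 : r ^ 2 = κ ^ 2 * (q / β) := by
    rw [hr, mul_pow, Real.sq_sqrt (by positivity)]
  have hur : u ≤ 3 * r := by
    rw [hu, hr]
    have h1 : Real.sqrt (((5 * q : ℕ) : ℝ) / β) ≤ 3 * Real.sqrt (q / β) := by
      have h2 : ((5 * q : ℕ) : ℝ) / β ≤ 3 ^ 2 * (q / β) := by
        push_cast
        rw [mul_div_assoc]
        have : (0 : ℝ) ≤ q / β := by positivity
        linarith
      calc _ ≤ Real.sqrt (3 ^ 2 * (q / β)) := Real.sqrt_le_sqrt h2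
        _ = _ := by rw [Real.sqrt_mul (by norm_num), Real.sqrt_sq (by norm_num)]
    calc κ * Real.sqrt (((5 * q : ℕ) : ℝ) / β) ≤ κ * (3 * Real.sqrt (q / β)) :=
          mul_le_mul_of_nonneg_left h1 hκ0.le
      _ = _ := by ring
  -- the size of the shift
  obtain ⟨s, hs⟩ : ∃ s, s = 1 / Real.sqrt (K1 * β * Q) := ⟨_, rfl⟩
  have hKQ : 0 < K1 * β * Q := by positivity
  have hs0 : 0 < s := by rw [hs]; positivity
  have hs2 : s ^ 2 = 1 / (K1 * β * Q) := by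
    rw [hs, div_pow, one_pow, Real.sq_sqrt hKQ.le]
  have hsr : s * q ≤ K * r := by
    have h1 : (s * q) ^ 2 ≤ (K * r) ^ 2 := by
      rw [mul_pow, mul_pow, hs2, hr2, one_div, inv_mul_eq_div, div_le_iff₀ hKQ]
      have e1 : (K : ℝ) ^ 2 * (κ ^ 2 * (q / β)) * (K1 * β * Q) =
          (K : ℝ) ^ 2 * κ ^ 2 * K1 * (q * Q) := by field_simp
      rw [e1]
      have h2 : (q : ℝ) ≤ Q := by
        rw [hQ, pow_succ]
        exact le_mul_of_one_le_left hq0.le (one_le_pow₀ hq1)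
      have h3 : (1 : ℝ) ≤ (K : ℝ) ^ 2 * κ ^ 2 * K1 :=
        one_le_mul_of_one_le_of_one_le (one_le_mul_of_one_le_of_one_le (one_le_pow₀ hKR) hκ2) hK11
      calc (q : ℝ) ^ 2 = 1 * (q * q) := by ring
        _ ≤ (K : ℝ) ^ 2 * κ ^ 2 * K1 * (q * Q) :=
          mul_le_mul h3 (mul_le_mul_of_nonneg_left h2 hq0.le) (by positivity) (by positivity)
    exact (pow_le_pow_iff_left₀ (by positivity) (by positivity) two_ne_zero).1 h1
  obtain ⟨KB, hKB⟩ : ∃ KB, KB = Kb e q m := ⟨_, rfl⟩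
  have hKl : (1 / 2 : ℝ) ^ (e + 2) * q ≤ KB := by rw [hKB]; exact Kb_ge hq hqm
  have hKB0 : 0 < KB := lt_of_lt_of_le (by positivity) hKl
  obtain ⟨y, hy⟩ : ∃ y, y = s * KB := ⟨_, rfl⟩
  have hy0 : 0 < y := by rw [hy]; positivity
  obtain ⟨t, ht⟩ : ∃ t, t = 1 / (16 * (n : ℝ)) * y := ⟨_, rfl⟩
  have ht0 : 0 < t := by rw [ht]; positivity
  have hX : ∀ (a : Fin n) (s' : ℝ), s' ^ 2 = s ^ 2 →
      EX μ L β (fun U : Ed (e + 3) (2 * m) → G => XH L β q a s' U) ≤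
        CE e N * (s ^ 2 * β * (q : ℝ) ^ (e + 1)) := fun a s' h => by
    rw [← h]
    exact XH_bound μ hm2 hN hβ0 hq hκ0.le (by omega) hKm hR (by omega) hqβ hβ3 a s'
  have key := union_EX μ (L := L) (β := β) hn hq hqm hC0.le hcar hs0 (y := y) (by rw [hy, hKB])
    hy0 c ht (fun a => hX a s rfl) (fun a => hX a (-s) (by ring))
  have hYr : Y * (K * r) ^ 2 ≤ 1 := by
    rw [mul_pow, hr2]
    have e1 : Y * ((K : ℝ) ^ 2 * (κ ^ 2 * (q / β))) = (K : ℝ) ^ 2 * κ ^ 2 * q * Y / β := by ring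
    rw [e1, div_le_one hβ0]
    refine le_trans ?_ hβ1
    refine mul_le_mul_of_nonneg_right ?_ hYp.le
    have h2 : (K : ℝ) ^ 2 ≤ (K : ℝ) ^ 3 := pow_le_pow_right₀ hKR (by norm_num)
    have h3 : (q : ℝ) ≤ (q : ℝ) ^ 2 := by nlinarith
    exact mul_le_mul (mul_le_mul_of_nonneg_right h2 (by positivity)) h3 hq0.le (by positivity)
  have h2p : (1 / 2 : ℝ) ^ (e + 2) * 2 ^ (e + 2) = 1 := by
    rw [← mul_pow]; norm_num
  have hp0 : (0 : ℝ) < 2 ^ (e + 2) := by positivity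
  -- the first term
  have t1 : 6 * n * (CE e N * (s ^ 2 * β * (q : ℝ) ^ (e + 1))) = 1 / 4 := by
    rw [hs2, ← hQ, hK1]
    have h1 : 0 < CE e N := CE_pos
    field_simp
    ring
  -- the second term
  have t2 : (s / t * en μ L β (fun U : Ed (e + 3) (2 * m) → G => ErH L q s U)) ^ 2 ≤ 1 / 4 := by
    have k1 := ErH_en μ (L := L) (e := e) hN hu0 hR5 hq hqm hK hKm s
    rw [abs_of_pos hs0] at k1
    have k2 : s / t * en μ L β (fun U : Ed (e + 3) (2 * m) → G => ErH L q s U) ≤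
        B1 * (K * r) := by
      have k3 : s / t ≤ 2 ^ (e + 2) * (16 * n) / q := by
        rw [ht, hy, div_le_div_iff₀ (by positivity) hq0]
        have k4 : (1 : ℝ) * q ≤ 2 ^ (e + 2) * KB := by
          calc (1 : ℝ) * q = 2 ^ (e + 2) * ((1 / 2 : ℝ) ^ (e + 2) * q) := by
                rw [← mul_assoc, mul_comm (2 ^ (e + 2) : ℝ), h2p]
            _ ≤ _ := mul_le_mul_of_nonneg_left hKl hp0.le
        calc s * q = s * (1 * q) := by ring
          _ ≤ s * (2 ^ (e + 2) * KB) := mul_le_mul_of_nonneg_left k4 hs0.le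
          _ = 2 ^ (e + 2) * (16 * n) * (1 / (16 * n) * (s * KB)) := by field_simp
      have k5 : ((5 * (e : ℝ) + 26) + 2 * K * (e + 2)) * (((e + 3 : ℕ) : ℝ) * u) + s * q ≤
          (((5 * (e : ℝ) + 26) + 2 * (e + 2)) * ((e + 3) * 3) + 1) * (K * r) := by
        have k6 : (5 * (e : ℝ) + 26) + 2 * K * (e + 2) ≤
            ((5 * (e : ℝ) + 26) + 2 * (e + 2)) * K := by
          have k60 : (5 * (e : ℝ) + 26) * 1 ≤ (5 * (e : ℝ) + 26) * K :=
            mul_le_mul_of_nonneg_left hKR (by positivity)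
          have k61 : ((5 * (e : ℝ) + 26) + 2 * (e + 2)) * K =
            (5 * (e : ℝ) + 26) * K + 2 * K * (e + 2) := by ring
          rw [k61]
          linarith only [k60]
        have k7 : (((e + 3 : ℕ) : ℝ) * u) ≤ (e + 3) * 3 * r := by
          push_cast
          rw [mul_assoc]
          exact mul_le_mul_of_nonneg_left hur (by positivity)
        calc _ ≤ (((5 * (e : ℝ) + 26) + 2 * (e + 2)) * K) * ((e + 3) * 3 * r) + K * r :=
              add_le_add (mul_le_mul k6 k7 (by positivity) (by positivity)) hsr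
          _ = _ := by ring
      calc _ ≤ 2 ^ (e + 2) * (16 * n) / q * (q * (((5 * (e : ℝ) + 26) + 2 * K * (e + 2)) *
            (((e + 3 : ℕ) : ℝ) * u) + s * q)) :=
            mul_le_mul k3 k1 (en_nonneg μ _) (by positivity)
        _ = 2 ^ (e + 2) * (16 * n) * (((5 * (e : ℝ) + 26) + 2 * K * (e + 2)) *
            (((e + 3 : ℕ) : ℝ) * u) + s * q) := by
            field_simp
        _ ≤ 2 ^ (e + 2) * (16 * n) *
            ((((5 * (e : ℝ) + 26) + 2 * (e + 2)) * ((e + 3) * 3) + 1) * (K * r)) :=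
            mul_le_mul_of_nonneg_left k5 (by positivity)
        _ = B1 * (K * r) := by rw [hB1]; ring
    have k0 : 0 ≤ s / t * en μ L β (fun U : Ed (e + 3) (2 * m) → G => ErH L q s U) :=
      mul_nonneg (by positivity) (en_nonneg μ _)
    have k7 := pow_le_pow_left₀ k0 k2 2
    have k8 : (B1 * (K * r)) ^ 2 ≤ 1 / 4 := by
      have k9 : 4 * B1 ^ 2 * (K * r) ^ 2 ≤ Y * (K * r) ^ 2 := by
        refine mul_le_mul_of_nonneg_right ?_ (by positivity)
        rw [hY]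
        have : 0 ≤ 16 * K1 * B2 ^ 2 := by positivity
        linarith
      rw [mul_pow B1]
      linarith
    exact k7.trans k8
  -- the third term
  have t3 : 1 / y * EX μ L β (fun U : Ed (e + 3) (2 * m) → G => Nr L C0 q U) ≤ 1 / 4 := by
    have k1 := EX_Nr μ (L := L) (e := e) hN hu0 hR5 hq hC0.le
    have k2 : ((3 * (e : ℝ) + 14) * (((e + 3 : ℕ) : ℝ) * u)) ^ 2 ≤
        ((3 * (e : ℝ) + 14) * ((e + 3) * 3)) ^ 2 * r ^ 2 := by
      rw [← mul_pow]
      refine pow_le_pow_left₀ (by positivity) ?_ 2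
      rw [mul_assoc]
      refine mul_le_mul_of_nonneg_left ?_ (by positivity)
      push_cast
      rw [mul_assoc]
      exact mul_le_mul_of_nonneg_left hur (by positivity)
    have k3 : EX μ L β (fun U : Ed (e + 3) (2 * m) → G => Nr L C0 q U) ≤
        2 * Real.sqrt C0 * (((3 * (e : ℝ) + 14) * ((e + 3) * 3)) ^ 2 * r ^ 2) :=
      k1.trans (mul_le_mul_of_nonneg_left k2 (by positivity))
    have k4 : s * q ≤ 2 ^ (e + 2) * y := by
      rw [hy]
      calc s * q = s * (2 ^ (e + 2) * ((1 / 2 : ℝ) ^ (e + 2) * q)) := by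
            rw [← mul_assoc (2 ^ (e + 2) : ℝ), mul_comm (2 ^ (e + 2) : ℝ), h2p, one_mul]
        _ ≤ s * (2 ^ (e + 2) * KB) :=
            mul_le_mul_of_nonneg_left (mul_le_mul_of_nonneg_left hKl hp0.le) hs0.le
        _ = _ := by ring
    have k5 : 1 / y * EX μ L β (fun U : Ed (e + 3) (2 * m) → G => Nr L C0 q U) ≤
        B2 * r ^ 2 / (s * q) := by
      rw [one_div, inv_mul_le_iff₀ hy0]
      refine k3.trans ?_
      rw [← mul_div_assoc, le_div_iff₀ (by positivity)]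
      calc 2 * Real.sqrt C0 * (((3 * (e : ℝ) + 14) * ((e + 3) * 3)) ^ 2 * r ^ 2) * (s * q) ≤
          2 * Real.sqrt C0 * (((3 * (e : ℝ) + 14) * ((e + 3) * 3)) ^ 2 * r ^ 2) *
            (2 ^ (e + 2) * y) :=
            mul_le_mul_of_nonneg_left k4 (by positivity)
        _ = _ := by rw [hB2]; ring
    refine k5.trans ?_
    rw [div_le_iff₀ (by positivity)]
    have k6 : (B2 * r ^ 2) ^ 2 ≤ (1 / 4 * (s * q)) ^ 2 := by
      have e1 : (1 / 4 * (s * q)) ^ 2 = (q : ℝ) ^ 2 / (16 * K1 * β * Q) := by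
        rw [mul_pow, mul_pow, hs2]
        field_simp
        norm_num
      have e2 : (B2 * r ^ 2) ^ 2 = (q : ℝ) ^ 2 * (B2 ^ 2 * κ ^ 4 / β ^ 2) := by
        rw [hr2]; field_simp
      rw [e1, e2, div_eq_mul_inv ((q : ℝ) ^ 2)]
      refine mul_le_mul_of_nonneg_left ?_ (by positivity)
      rw [← one_div, div_le_div_iff₀ (by positivity) (by positivity)]
      have k7 : 16 * K1 * B2 ^ 2 ≤ Y := by
        rw [hY]
        have : 0 ≤ 4 * B1 ^ 2 := by positivity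
        linarith
      calc B2 ^ 2 * κ ^ 4 * (16 * K1 * β * Q) = (16 * K1 * B2 ^ 2) * (κ ^ 4 * Q) * β := by ring
        _ ≤ Y * (κ ^ 4 * Q) * β :=
            mul_le_mul_of_nonneg_right (mul_le_mul_of_nonneg_right k7 (by positivity)) hβ0.le
        _ = (κ ^ 4 * Q * Y) * β := by ring
        _ ≤ β * β := mul_le_mul_of_nonneg_right hβ2 hβ0.le
        _ = 1 * β ^ 2 := by ring
    exact (pow_le_pow_iff_left₀ (by positivity) (by positivity) two_ne_zero).1 k6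
  -- conclusion
  have hW : 1 / (4 * (1 + 6 * (n : ℝ))) ≤
      EX μ L β (fun U : Ed (e + 3) (2 * m) → G => Wd L q c t U) := by
    rw [div_le_iff₀ (by positivity)]
    linarith
  have hWe : EX μ L β (fun U : Ed (e + 3) (2 * m) → G => Wd L q c t U) =
      (1 / t) ^ 2 * EX μ L β (fun U : Ed (e + 3) (2 * m) → G => (‖psi L q U‖ - c) ^ 2) := by
    rw [← EX_smul]
    congr 1
    funext U
    unfold Wd
    ring
  rw [hWe] at hW
  have hf : t ^ 2 / (4 * (1 + 6 * (n : ℝ))) ≤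
      EX μ L β (fun U : Ed (e + 3) (2 * m) → G => (‖psi L q U‖ - c) ^ 2) := by
    have h1 := mul_le_mul_of_nonneg_left hW (sq_nonneg t)
    rw [← mul_assoc, ← mul_pow, mul_one_div_cancel ht0.ne', one_pow, one_mul] at h1
    rw [div_eq_mul_one_div]
    exact h1
  refine le_trans ?_ hf
  have ht2 : (1 / (16 * (n : ℝ)) * (1 / 2) ^ (e + 2)) ^ 2 * (s * q) ^ 2 ≤ t ^ 2 := by
    rw [← mul_pow]
    refine pow_le_pow_left₀ (by positivity) ?_ 2
    rw [ht, hy]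
    calc 1 / (16 * (n : ℝ)) * (1 / 2) ^ (e + 2) * (s * q) =
        1 / (16 * (n : ℝ)) * (s * ((1 / 2) ^ (e + 2) * q)) := by ring
      _ ≤ _ := mul_le_mul_of_nonneg_left (mul_le_mul_of_nonneg_left hKl hs0.le) (by positivity)
  have h3 : (1 / (16 * (n : ℝ)) * (1 / 2) ^ (e + 2)) ^ 2 / (K1 * (4 * (1 + 6 * n))) *
      ((q : ℝ) ^ 2 / (β * (q : ℝ) ^ (e + 1))) =
      (1 / (16 * (n : ℝ)) * (1 / 2) ^ (e + 2)) ^ 2 * (s * q) ^ 2 / (4 * (1 + 6 * (n : ℝ))) := by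
    rw [mul_pow (s : ℝ), hs2, ← hQ]
    field_simp
  rw [h3]
  exact div_le_div_of_nonneg_right ht2 (by positivity)

end

end Pool.Agent.Q206.YM
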