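import Mathlib
import Pool.Agent.Y14.Fin
import Pool.Agent.Q206.YM.Var
import Pool.Agent.Q206.YM.Dif

/-!
# Slow decay of the time correlations
-/

open MeasureTheory Matrix Filter
open scoped Matrix.Norms.Frobenius Topology
open Pool.Agent.H906R3.YM hiding Pl
open Pool.Agent.W793.YM Pool.Agent.TH618.YM Pool.Agent.Y14

namespace Pool.Agent.Q206.YM

set_option linter.unusedSectionVars false
set_option linter.unusedVariables false

noncomputable section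

variable {G : Type*} [Group G] [TopologicalSpace G] [IsTopologicalGroup G] [CompactSpace G]
  [SecondCountableTopology G] [MeasurableSpace G] [BorelSpace G] (μ : Measure G)
  [IsProbabilityMeasure μ] [μ.IsMulLeftInvariant] [μ.IsMulRightInvariant] [μ.IsInvInvariant]
  {N n : ℕ} {L : LD G N n}

lemma cA_ge {N : ℕ} (hN : 1 ≤ N) : 1 ≤ Y15.cA N := by
  unfold Y15.cA
  have h1 : (1 : ℝ) ≤ Y15.cN N := by
    have : (1 : ℝ) ≤ N := by exact_mod_cast hN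
    unfold Y15.cN
    have h3 : (1 : ℝ) ≤ (N : ℝ) ^ 3 := one_le_pow₀ this
    have h4 : (1 : ℝ) ≤ Real.exp (2 * N ^ 2) := Real.one_le_exp (by positivity)
    have h5 : (1 : ℝ) ≤ 2 * (N : ℝ) ^ 3 := by linarith
    exact one_le_mul_of_one_le_of_one_le h5 h4
  have h2 : (1 : ℝ) ≤ Real.sqrt (Y15.cN N) := by
    rw [show (1 : ℝ) = Real.sqrt 1 by simp]
    exact Real.sqrt_le_sqrt h1
  linarith

/-- truncated correlations of the observable -/
theorem truncR (hn : 1 ≤ n) (hN : 1 ≤ N) (e : ℕ) {C0 : ℝ} (hC0 : 0 < C0)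
    (hcar : ∀ g : G, dv L g ^ 2 ≤ ∑ a, fi L a g ^ 2 + C0 * dv L g ^ 4) :
    ∃ Y C4 cv : ℝ, 1 ≤ Y ∧ 0 < C4 ∧ 0 < cv ∧
    ∀ q K : ℕ, 1 ≤ q → C4 ≤ q → 5 * q < 2 ^ K → 2 ^ K ≤ 10 * q → ∀ β : ℝ, 3 ≤ β →
      (K : ℝ) ^ 3 * (Y15.cA N * Real.log β) ^ 2 * (q : ℝ) ^ (e + 2) * Y ≤ β →
      (Y15.cA N * Real.log β) ^ 4 * (q : ℝ) ^ (e + 1) * Y ≤ β → ∀ (m : ℕ) [NeZero m],
      10 * (e + 3) * q ≤ m →
      cv ≤ Zt μ L β (fun U : Ed (e + 3) (2 * m) → G => (nc e q β * Fq L q U) *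
          (nc e q β * Fq L q U)) / Zt μ L β (fun _ : Ed (e + 3) (2 * m) → G => 1) -
        (Zt μ L β (fun U : Ed (e + 3) (2 * m) → G => nc e q β * Fq L q U) /
          Zt μ L β (fun _ : Ed (e + 3) (2 * m) → G => 1)) ^ 2 ∧
      ∀ k : ℕ, 1 ≤ k → k ≤ m →
      Real.exp (-(C4 / q * k)) *
        (Zt μ L β (fun U : Ed (e + 3) (2 * m) → G => (nc e q β * Fq L q U) *
          (nc e q β * Fq L q U)) / Zt μ L β (fun _ : Ed (e + 3) (2 * m) → G => 1) -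
        (Zt μ L β (fun U : Ed (e + 3) (2 * m) → G => nc e q β * Fq L q U) /
          Zt μ L β (fun _ : Ed (e + 3) (2 * m) → G => 1)) ^ 2) ≤
        Zt μ L β (fun U : Ed (e + 3) (2 * m) → G => (nc e q β * Fq L q U) *
          (nc e q β * Fq L q (tr (sv (Fin.last (e + 2)) ((2 * k - 1 : ℕ) : ZMod (2 * m))) U))) /
          Zt μ L β (fun _ : Ed (e + 3) (2 * m) → G => 1) -
        (Zt μ L β (fun U : Ed (e + 3) (2 * m) → G => nc e q β * Fq L q U) /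
          Zt μ L β (fun _ : Ed (e + 3) (2 * m) → G => 1)) ^ 2 := by
  obtain ⟨Y, cv, hY, hcv, hvar⟩ := var_low μ (L := L) hn hN e hC0 hcar
  have hCD := CF_pos (e := e) hN
  have hN1 : (1 : ℝ) ≤ N := by exact_mod_cast hN
  have he0 : (0 : ℝ) ≤ e := Nat.cast_nonneg e
  refine ⟨Y + 10 * N * (e + 3) + 30, 9 * CF e N / cv, cv, by nlinarith, by positivity, hcv,
    fun q K hq hq' hK5 hK10 β hβ3 hβA hβB m _ hm => ?_⟩
  have hβ0 : 0 < β := by linarith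
  have hq1 : (1 : ℝ) ≤ q := by exact_mod_cast hq
  have hq0 : (0 : ℝ) < q := by linarith
  have hlog : 1 ≤ Real.log β := by
    have h1 : Real.exp 1 ≤ β := (Real.exp_one_lt_d9.le.trans (by norm_num)).trans hβ3
    rw [← Real.log_exp 1]
    exact Real.log_le_log (Real.exp_pos 1) h1
  have hA1 := cA_ge hN
  obtain ⟨κ, hκ⟩ : ∃ κ, κ = Y15.cA N * Real.log β := ⟨_, rfl⟩
  rw [← hκ] at hβA hβB
  have hκ1 : 1 ≤ κ := by rw [hκ]; exact one_le_mul_of_one_le_of_one_le hA1 hlog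
  have hκ0 : 0 < κ := by linarith
  have hκ2 : (1 : ℝ) ≤ κ ^ 2 := one_le_pow₀ hκ1
  have hm10 : 10 * q ≤ m := by
    refine le_trans ?_ hm
    refine Nat.mul_le_mul_right q ?_
    omega
  have hm5 : 5 * q < 2 * m := by omega
  have hm2 : 2 ≤ m := by omega
  have hm5e : 5 * (e + 3) * q < 2 * m := by
    have h1 : 1 ≤ (e + 3) * q := Nat.mul_pos (by omega) hq
    have h2 : 10 * (e + 3) * q = 10 * ((e + 3) * q) := by ring
    have h3 : 5 * (e + 3) * q = 5 * ((e + 3) * q) := by ring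
    omega
  have hKpos : 1 ≤ K := by
    rcases Nat.eq_zero_or_pos K with h | h
    · subst h; omega
    · exact h
  have hKR : (1 : ℝ) ≤ K := by exact_mod_cast hKpos
  have hK3 : (1 : ℝ) ≤ (K : ℝ) ^ 3 := one_le_pow₀ hKR
  have hKm : K ≤ 2 * m := by
    have := Nat.lt_two_pow_self (n := K)
    omega
  -- consequences of the first condition
  obtain ⟨Y', hY'⟩ : ∃ Y', Y' = Y + 10 * N * (e + 3) + 30 := ⟨_, rfl⟩
  rw [← hY'] at hβA hβB
  have hNe : (0 : ℝ) ≤ 10 * N * (e + 3) := by positivity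
  have hYY : Y ≤ Y' := by rw [hY']; linarith
  have hY0 : 0 < Y := by linarith
  have hY'0 : 0 < Y' := by linarith
  have hqp : (q : ℝ) ≤ (q : ℝ) ^ (e + 2) := by
    calc (q : ℝ) = (q : ℝ) ^ 1 := (pow_one _).symm
      _ ≤ (q : ℝ) ^ (e + 2) := pow_le_pow_right₀ hq1 (by omega)
  have hq2p : (q : ℝ) ^ 2 ≤ (q : ℝ) ^ (e + 2) := pow_le_pow_right₀ hq1 (by omega)
  have hKκ : (1 : ℝ) ≤ (K : ℝ) ^ 3 * κ ^ 2 := one_le_mul_of_one_le_of_one_le hK3 hκ2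
  have hcond1 : (K : ℝ) ^ 3 * κ ^ 2 * (q : ℝ) ^ 2 * Y ≤ β := by
    refine le_trans ?_ hβA
    exact mul_le_mul (mul_le_mul_of_nonneg_left hq2p (by positivity)) hYY hY0.le (by positivity)
  have hcond2 : κ ^ 4 * (q : ℝ) ^ (e + 1) * Y ≤ β := by
    refine le_trans ?_ hβB
    exact mul_le_mul_of_nonneg_left hYY (by positivity)
  have hcond3 : κ ^ 2 * (q : ℝ) ^ (e + 2) ≤ β := by
    refine le_trans ?_ hβA
    have h1 : (1 : ℝ) ≤ Y' := hY.trans hYY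
    calc κ ^ 2 * (q : ℝ) ^ (e + 2) = 1 * (κ ^ 2 * (q : ℝ) ^ (e + 2)) * 1 := by ring
      _ ≤ (K : ℝ) ^ 3 * (κ ^ 2 * (q : ℝ) ^ (e + 2)) * Y' :=
        mul_le_mul (mul_le_mul_of_nonneg_right hK3 (by positivity)) h1 (by norm_num)
          (by positivity)
      _ = _ := by ring
  have hqY : (q : ℝ) * Y' ≤ β := by
    refine le_trans ?_ hβA
    refine mul_le_mul_of_nonneg_right ?_ hY'0.le
    calc (q : ℝ) = 1 * q := (one_mul _).symm
      _ ≤ ((K : ℝ) ^ 3 * κ ^ 2) * (q : ℝ) ^ (e + 2) := mul_le_mul hKκ hqp hq0.le (by positivity)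
  have hqN : (q : ℝ) * (10 * N * (e + 3)) ≤ β := by
    refine le_trans (mul_le_mul_of_nonneg_left ?_ hq0.le) hqY
    rw [hY']; linarith
  have hq30 : 30 * (q : ℝ) ≤ β := by
    refine le_trans ?_ hqY
    rw [mul_comm]
    refine mul_le_mul_of_nonneg_left ?_ hq0.le
    rw [hY']; linarith
  have hK10R : ((2 ^ K : ℕ) : ℝ) ≤ 10 * q := by exact_mod_cast hK10
  have hRB : ∀ ρ : ℕ, ρ ≤ 2 ^ K → RB μ L (e + 3) m β ρ (κ * Real.sqrt (ρ / β)) := by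
    intro ρ hρ
    have h1 : (ρ : ℝ) ≤ ((2 ^ K : ℕ) : ℝ) := by exact_mod_cast hρ
    rw [hκ]
    exact RB_of μ (L := L) hN (by omega) hβ3 hm2 (by linarith) (by omega)
  have hv := hvar q K β κ hq hκ1 hK5 hcond1 hcond2 m hKm hm5 hRB
  have hu2 : (κ * Real.sqrt (((5 * q : ℕ) : ℝ) / β)) ^ 2 ≤ κ ^ 2 * (5 * (q / β)) := by
    rw [mul_pow, Real.sq_sqrt (by positivity)]
    refine le_of_eq ?_
    push_cast
    ring
  have hD := dif_boundR μ (L := L) (n := n) (e := e) hm2 hN hβ0 hq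
    (u := κ * Real.sqrt (((5 * q : ℕ) : ℝ) / β)) (by positivity) hκ1 (hRB (5 * q) hK5.le) hu2
    hcond3 hm5e hqN
  have ha := nc_pos (e := e) hq hβ0
  have ha2 := nc_sq (e := e) hq hβ0
  have ha3 := nc_sq' (e := e) hq hβ0
  refine trunc_gen μ (L := L) (τ := Fin.last (e + 2)) hm2 hβ0.le
    (O := fun U : Ed (e + 3) (2 * m) → G => nc e q β * Fq L q U)
    (continuous_const.mul Fq_cont) (fun γ U => ?_) (fun U U' h => ?_) hcv hCD hq0 hq'
    (var_Fq μ ha ha2 hv) (dif_Fq μ ha3 hD)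
  · have h1 : Fq L q (gt γ U) = Fq L q U := Fq_GI (L := L) (q := q) γ U
    show nc e q β * Fq L q (gt γ U) = nc e q β * Fq L q U
    rw [h1]
  · have h1 : Fq L q U = Fq L q U' := Fq_Sp (L := L) (q := q) (e := e) (m := m) U U' h
    show nc e q β * Fq L q U = nc e q β * Fq L q U'
    rw [h1]

/-- the choice of the scale -/
lemma scaleR {Y C4 A : ℝ} (hY : 1 ≤ Y) (hC4 : 0 < C4) (hA : 1 ≤ A) {D : ℕ} (hD : 1 ≤ D) :
    ∃ β₀ C5 : ℝ, 3 ≤ β₀ ∧ 0 < C5 ∧ ∀ β : ℝ, β₀ ≤ β → ∃ q K : ℕ, 1 ≤ q ∧ C4 ≤ q ∧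
      5 * q < 2 ^ K ∧ 2 ^ K ≤ 10 * q ∧
      (K : ℝ) ^ 3 * (A * Real.log β) ^ 2 * (q : ℝ) ^ D * Y ≤ β ∧
      (A * Real.log β) ^ 4 * (q : ℝ) ^ (D - 1) * Y ≤ β ∧
      (q : ℝ) ≤ C5 * (β / Real.log β ^ 5) ^ (1 / (D : ℝ)) ∧
      C4 / q ≤ C5 * (Real.log β ^ 5 / β) ^ (1 / (D : ℝ)) := by
  have hY0 : 0 < Y := by linarith
  have hA0 : 0 < A := by linarith
  have hD0 : (0 : ℝ) < D := by
    have : (1 : ℝ) ≤ D := by exact_mod_cast hD
    linarith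
  obtain ⟨c, hc⟩ : ∃ c, c = 1 / (27 * A ^ 2 * Y) := ⟨_, rfl⟩
  have hc0 : 0 < c := by rw [hc]; positivity
  have hc1 : c ≤ 1 := by
    rw [hc, div_le_one (by positivity)]
    have h1 : 1 ≤ A ^ 2 := one_le_pow₀ hA
    have h2 : 1 ≤ A ^ 2 * Y := one_le_mul_of_one_le_of_one_le h1 hY
    linarith
  obtain ⟨X, hX⟩ : ∃ X, X = 2 * A ^ 2 + 2 * C4 + 2 := ⟨_, rfl⟩
  have hX2 : 2 ≤ X := by rw [hX]; have := sq_nonneg A; linarith
  have hX0 : 0 < X := by linarith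
  -- large `β`
  have hlim := Real.isLittleO_pow_log_id_atTop (n := 2 * D + 5)
  have hlim2 := hlim.bound (c := c / X ^ D) (by positivity)
  obtain ⟨β₁, hβ₁⟩ := Filter.eventually_atTop.1 hlim2
  obtain ⟨C5, hC5⟩ : ∃ C5, C5 = 1 + 2 * C4 / c ^ (1 / (D : ℝ)) := ⟨_, rfl⟩
  have hcr : 0 < c ^ (1 / (D : ℝ)) := Real.rpow_pos_of_pos hc0 _
  refine ⟨max β₁ 10, C5, le_trans (by norm_num) (le_max_right _ _), by rw [hC5]; positivity,
    fun β hβ => ?_⟩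
  have hb1 := hβ₁ β ((le_max_left _ _).trans hβ)
  have hβ10 : 10 ≤ β := (le_max_right _ _).trans hβ
  have hβ0 : 0 < β := by linarith
  have hlog : 1 ≤ Real.log β := by
    have h1 : Real.exp 1 ≤ β := (Real.exp_one_lt_d9.le.trans (by norm_num)).trans
      (le_trans (by norm_num : (3 : ℝ) ≤ 10) hβ10)
    rw [← Real.log_exp 1]
    exact Real.log_le_log (Real.exp_pos 1) h1
  obtain ⟨ℓ, hℓ⟩ : ∃ ℓ, ℓ = Real.log β := ⟨_, rfl⟩
  rw [← hℓ] at hlog ⊢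
  have hℓ0 : 0 < ℓ := by linarith
  rw [Real.norm_of_nonneg (by rw [← hℓ]; positivity), id, Real.norm_of_nonneg hβ0.le, ← hℓ] at hb1
  have hb2 : (X * ℓ ^ 2) ^ D ≤ c * (β / ℓ ^ 5) := by
    have h1 : (X * ℓ ^ 2) ^ D * ℓ ^ 5 ≤ c * β := by
      have h2 : X ^ D * ℓ ^ (2 * D + 5) ≤ c * β := by
        have := mul_le_mul_of_nonneg_left hb1 (show 0 ≤ X ^ D by positivity)
        refine this.trans (le_of_eq ?_)
        field_simp
      refine le_trans (le_of_eq ?_) h2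
      rw [mul_pow, ← pow_mul, pow_add]
      ring
    rw [← mul_div_assoc, le_div_iff₀ (by positivity)]
    exact h1
  obtain ⟨x, hx⟩ : ∃ x, x = (c * (β / ℓ ^ 5)) ^ (1 / (D : ℝ)) := ⟨_, rfl⟩
  have hβℓ : 0 < β / ℓ ^ 5 := by positivity
  have hx0 : 0 ≤ x := by rw [hx]; positivity
  have hxD : x ^ D = c * (β / ℓ ^ 5) := by
    rw [hx, ← Real.rpow_natCast, ← Real.rpow_mul (by positivity)]
    rw [one_div_mul_cancel hD0.ne', Real.rpow_one]
  have hxX : X * ℓ ^ 2 ≤ x := by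
    have h1 : (X * ℓ ^ 2) ^ D ≤ x ^ D := by rw [hxD]; exact hb2
    exact (pow_le_pow_iff_left₀ (by positivity) hx0 (by omega)).1 h1
  have hℓ2 : 1 ≤ ℓ ^ 2 := one_le_pow₀ hlog
  have hx2 : 2 ≤ x := by
    refine le_trans ?_ hxX
    calc (2 : ℝ) = 2 * 1 := by norm_num
      _ ≤ X * ℓ ^ 2 := mul_le_mul hX2 hℓ2 (by norm_num) hX0.le
  obtain ⟨q, hq⟩ : ∃ q, q = ⌊x⌋₊ := ⟨_, rfl⟩
  have hqx : (q : ℝ) ≤ x := by rw [hq]; exact Nat.floor_le hx0
  have hqx2 : x / 2 ≤ q := by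
    have := Nat.lt_floor_add_one x
    rw [← hq] at this
    linarith
  have hq1 : (1 : ℝ) ≤ q := by linarith
  have hq1' : 1 ≤ q := by exact_mod_cast hq1
  have hq0 : (0 : ℝ) < q := by linarith
  have hX3 : A ^ 2 * ℓ ^ 2 ≤ q := by
    refine le_trans ?_ hqx2
    have h1 : 2 * A ^ 2 ≤ X := by rw [hX]; linarith
    have h2 := mul_le_mul_of_nonneg_right h1 (show 0 ≤ ℓ ^ 2 by positivity)
    linarith
  have hX4 : C4 ≤ q := by
    refine le_trans ?_ hqx2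
    have h1 : 2 * C4 ≤ X := by rw [hX]; have := sq_nonneg A; linarith
    have h2 : X * 1 ≤ X * ℓ ^ 2 := mul_le_mul_of_nonneg_left hℓ2 hX0.le
    linarith
  -- the number of binary digits
  obtain ⟨K, hK⟩ : ∃ K, K = Nat.log 2 (5 * q) + 1 := ⟨_, rfl⟩
  have hK5 : 5 * q < 2 ^ K := by rw [hK]; exact Nat.lt_pow_succ_log_self (by norm_num) _
  have hK10 : 2 ^ K ≤ 10 * q := by
    have := Nat.pow_log_le_self 2 (show 5 * q ≠ 0 by omega)
    rw [hK, pow_succ]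
    omega
  have hqD : (q : ℝ) ^ D ≤ c * (β / ℓ ^ 5) := by
    rw [← hxD]; exact pow_le_pow_left₀ hq0.le hqx D
  have hqβ : (q : ℝ) ≤ β := by
    have h1 : (q : ℝ) ≤ (q : ℝ) ^ D := by
      calc (q : ℝ) = (q : ℝ) ^ 1 := (pow_one _).symm
        _ ≤ (q : ℝ) ^ D := pow_le_pow_right₀ hq1 hD
    have h2 : β / ℓ ^ 5 ≤ β := div_le_self hβ0.le (one_le_pow₀ hlog)
    calc (q : ℝ) ≤ c * (β / ℓ ^ 5) := h1.trans hqD
      _ ≤ 1 * β := mul_le_mul hc1 h2 (by positivity) (by norm_num)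
      _ = β := one_mul β
  have hKℓ : (K : ℝ) ≤ 3 * ℓ := by
    have h1 : (2 : ℝ) ^ K ≤ β ^ 2 := by
      calc (2 : ℝ) ^ K ≤ 10 * q := by exact_mod_cast hK10
        _ ≤ β * β := mul_le_mul hβ10 hqβ hq0.le hβ0.le
        _ = β ^ 2 := by ring
    have h2 := Real.log_le_log (by positivity) h1
    rw [Real.log_pow, Real.log_pow, ← hℓ] at h2
    push_cast at h2
    have h3 := Real.log_two_gt_d9
    have h4 : (0 : ℝ) ≤ K := Nat.cast_nonneg K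
    nlinarith
  refine ⟨q, K, hq1', hX4, hK5, hK10, ?_, ?_, ?_, ?_⟩
  · calc (K : ℝ) ^ 3 * (A * ℓ) ^ 2 * (q : ℝ) ^ D * Y ≤
        (3 * ℓ) ^ 3 * (A * ℓ) ^ 2 * (c * (β / ℓ ^ 5)) * Y := by
          refine mul_le_mul_of_nonneg_right ?_ hY0.le
          refine mul_le_mul (mul_le_mul_of_nonneg_right ?_ (by positivity)) hqD (by positivity)
            (by positivity)
          exact pow_le_pow_left₀ (Nat.cast_nonneg K) hKℓ 3
      _ = β := by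
          rw [hc]; field_simp; ring
  · have h1 : (A * ℓ) ^ 4 * (q : ℝ) ^ (D - 1) * Y ≤ (A * ℓ) ^ 2 * (q : ℝ) ^ D * Y := by
      refine mul_le_mul_of_nonneg_right ?_ hY0.le
      have h2 : (q : ℝ) ^ D = q * (q : ℝ) ^ (D - 1) := by
        rw [← pow_succ']
        congr 1
        omega
      rw [h2]
      calc (A * ℓ) ^ 4 * (q : ℝ) ^ (D - 1) =
          (A ^ 2 * ℓ ^ 2) * ((A * ℓ) ^ 2 * (q : ℝ) ^ (D - 1)) := by ring
        _ ≤ q * ((A * ℓ) ^ 2 * (q : ℝ) ^ (D - 1)) :=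
          mul_le_mul_of_nonneg_right hX3 (by positivity)
        _ = _ := by ring
    refine h1.trans ?_
    have h3 : (1 : ℝ) ≤ ℓ ^ 3 := one_le_pow₀ hlog
    calc (A * ℓ) ^ 2 * (q : ℝ) ^ D * Y ≤ (A * ℓ) ^ 2 * (c * (β / ℓ ^ 5)) * Y :=
          mul_le_mul_of_nonneg_right (mul_le_mul_of_nonneg_left hqD (by positivity)) hY0.le
      _ = 1 / 27 * (β / ℓ ^ 3) := by
          rw [hc]; field_simp
      _ ≤ 1 * β := mul_le_mul (by norm_num) (div_le_self hβ0.le h3) (by positivity) (by norm_num)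
      _ = β := one_mul β
  · refine hqx.trans ?_
    rw [hx, Real.mul_rpow hc0.le hβℓ.le]
    refine mul_le_mul_of_nonneg_right ?_ (by positivity)
    have h1 : c ^ (1 / (D : ℝ)) ≤ 1 := Real.rpow_le_one hc0.le hc1 (by positivity)
    refine h1.trans ?_
    rw [hC5]
    have : 0 ≤ 2 * C4 / c ^ (1 / (D : ℝ)) := by positivity
    linarith
  · have hinv : (ℓ ^ 5 / β) ^ (1 / (D : ℝ)) * x = c ^ (1 / (D : ℝ)) := by
      rw [hx, ← Real.mul_rpow (by positivity) (by positivity)]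
      congr 1
      field_simp
    rw [div_le_iff₀ hq0]
    have h1 : C4 ≤ 2 * C4 / c ^ (1 / (D : ℝ)) * (ℓ ^ 5 / β) ^ (1 / (D : ℝ)) * (x / 2) := by
      have : 2 * C4 / c ^ (1 / (D : ℝ)) * (ℓ ^ 5 / β) ^ (1 / (D : ℝ)) * (x / 2) =
          C4 / c ^ (1 / (D : ℝ)) * ((ℓ ^ 5 / β) ^ (1 / (D : ℝ)) * x) := by ring
      rw [this, hinv, div_mul_cancel₀ _ hcr.ne']
    refine h1.trans ?_
    refine mul_le_mul (mul_le_mul_of_nonneg_right ?_ (by positivity)) hqx2 (by positivity)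
      (by rw [hC5]; positivity)
    rw [hC5]
    linarith

end

end Pool.Agent.Q206.YM
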