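import Mathlib
import Pool.Agent.Y14.Main
import Pool.Agent.Q206.YM.Fin

/-!
# The mass gap at weak coupling is at most `C (log ^ 5 β / β) ^ (1 / (d - 1))`
-/

open MeasureTheory Matrix Filter
open scoped Matrix.Norms.Frobenius Topology

namespace Pool.Agent.Q206.YM.Wilson

set_option linter.unusedSectionVars false

noncomputable section

open Pool.Agent Pool.Agent.H906R3 Pool.Agent.W793 Pool.Agent.TH618 Pool.Agent.Y14.Wilson

variable {N n d l D : ℕ} {G : Subgroup (UU N)}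

section bridge

variable [CompactSpace G] [SecondCountableTopology G] [MeasurableSpace G] [BorelSpace G]
  (μ : Measure G) [IsProbabilityMeasure μ] [μ.IsHaarMeasure] (B : LieBasis G n)

include B in
theorem finite_part (hG : IsClosed (G : Set (UU N))) (hn : 1 ≤ n) (hN : 1 ≤ N) (e : ℕ) :
    ∃ C c β₀ : ℝ, 0 < C ∧ 0 < c ∧ 3 ≤ β₀ ∧
    ∀ β : ℝ, β₀ ≤ β → ∃ (R : ℕ) (F : (LinkZ (e + 2 + 1) → G) → ℝ),
      (R : ℝ) ≤ C * (β / Real.log β ^ 5) ^ (1 / ((e + 2 : ℕ) : ℝ)) ∧ IsLocal R F ∧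
      AtTimeZero F ∧
      ∀ (l : ℕ) [NeZero l], Even l → R < l → c ≤ corr l μ β F 0 ∧ ∀ t : ℕ, Odd t → t < l →
        Real.exp (-(C * (Real.log β ^ 5 / β) ^ (1 / ((e + 2 : ℕ) : ℝ)) * t)) *
          corr l μ β F 0 ≤ corr l μ β F t := by
  have := right_inv μ
  have := inv_inv' μ
  obtain ⟨C0, hC0, hcar⟩ := YM.cartan' (fm B) hG
  obtain ⟨Y, C4, c1, hY, hC4, hc1, htr⟩ := truncR μ (L := ld B) hn hN e hC0 hcar
  obtain ⟨β₀, C5, hβ₀, hC5, hsc⟩ := scaleR hY hC4 (cA_ge hN) (D := e + 2) (by omega)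
  have hE : (0 : ℝ) ≤ e := Nat.cast_nonneg e
  refine ⟨(20 * (e + 3) + 1) * C5, c1, β₀, by positivity, hc1, hβ₀, fun β hβ => ?_⟩
  have hβ3 : 3 ≤ β := hβ₀.trans hβ
  have hβ0 : 0 < β := by linarith
  have hlog0 : 0 ≤ Real.log β := Real.log_nonneg (by linarith)
  obtain ⟨q, K, hq1, hq2, hK5, hK10, hq3, hq3', hq4, hq5⟩ := hsc β hβ
  obtain ⟨κ, hκ⟩ : ∃ κ : ℝ, κ = 1 / ((e + 2 : ℕ) : ℝ) := ⟨_, rfl⟩
  rw [← hκ] at hq4 hq5 ⊢
  obtain ⟨a, ha⟩ : ∃ a, a = Y14.nc e q β := ⟨_, rfl⟩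
  obtain ⟨F, hF⟩ : ∃ F : (LinkZ (e + 2 + 1) → G) → ℝ, F = FZ B e q a := ⟨_, rfl⟩
  have hq5q : 5 * q < 20 * (e + 3) * q + 1 := by nlinarith
  refine ⟨20 * (e + 3) * q + 1, F, ?_, by rw [hF]; exact FZ_local B hq5q a,
    by rw [hF]; exact FZ_time B e q a, ?_⟩
  · push_cast
    have h1 : (1 : ℝ) ≤ q := by exact_mod_cast hq1
    calc 20 * ((e : ℝ) + 3) * q + 1 ≤ (20 * (e + 3) + 1) * q := by linarith
      _ ≤ (20 * (e + 3) + 1) * (C5 * (β / Real.log β ^ 5) ^ κ) :=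
        mul_le_mul_of_nonneg_left hq4 (by positivity)
      _ = _ := by ring
  · intro l _ hl hRl
    obtain ⟨m, rfl⟩ := even_iff_two_dvd.1 hl
    haveI hm0 : NeZero m := ⟨by rintro rfl; omega⟩
    have hm10 : 10 * (e + 3) * q ≤ m := by
      have h1 : 20 * (e + 3) * q = 2 * (10 * (e + 3) * q) := by ring
      omega
    obtain ⟨h0, h1⟩ := htr q K hq1 hq2 hK5 hK10 β hβ3 hq3 hq3' m hm10
    rw [← ha] at h0 h1
    have hFO : ∀ U : YM.Ed (e + 2 + 1) (2 * m) → G, F (YM.lf U) = a * Y14.Fq (ld B) q U :=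
      fun U => by rw [hF]; exact FZ_lf B a U
    have hsh : ∀ (t : ℕ) (U : YM.Ed (e + 2 + 1) (2 * m) → G), F (shift t (YM.lf U)) =
        a * Y14.Fq (ld B) q (YM.tr (YM.sv (Fin.last (e + 2)) (t : ZMod (2 * m))) U) := by
      intro t U
      rw [← hFO]
      exact congrArg F (YM.tz_lf (Fin.last (e + 2)) t U)
    have h2 : ∀ t : ℕ, corr (2 * m) μ β F t =
        YM.Zt μ (ld B) β (fun U : YM.Ed (e + 3) (2 * m) → G => (a * Y14.Fq (ld B) q U) *
          (a * Y14.Fq (ld B) q (YM.tr (YM.sv (Fin.last (e + 2)) (t : ZMod (2 * m))) U))) /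
          YM.Zt μ (ld B) β (fun _ : YM.Ed (e + 3) (2 * m) → G => 1) -
        (YM.Zt μ (ld B) β (fun U : YM.Ed (e + 3) (2 * m) → G => a * Y14.Fq (ld B) q U) /
          YM.Zt μ (ld B) β (fun _ : YM.Ed (e + 3) (2 * m) → G => 1)) ^ 2 := by
      intro t
      unfold corr
      rw [expect_eq μ B, expect_eq μ B, expect_eq μ B]
      simp only [hFO, hsh]
      rw [YM.Zt_tr μ β _ (fun U : YM.Ed (e + 3) (2 * m) → G => a * Y14.Fq (ld B) q U), pow_two]
    have h3 : corr (2 * m) μ β F 0 =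
        YM.Zt μ (ld B) β (fun U : YM.Ed (e + 3) (2 * m) → G => (a * Y14.Fq (ld B) q U) *
          (a * Y14.Fq (ld B) q U)) /
          YM.Zt μ (ld B) β (fun _ : YM.Ed (e + 3) (2 * m) → G => 1) -
        (YM.Zt μ (ld B) β (fun U : YM.Ed (e + 3) (2 * m) → G => a * Y14.Fq (ld B) q U) /
          YM.Zt μ (ld B) β (fun _ : YM.Ed (e + 3) (2 * m) → G => 1)) ^ 2 := by
      have hs0 : YM.sv (Fin.last (e + 2)) ((0 : ℕ) : ZMod (2 * m)) = 0 := by
        rw [Nat.cast_zero]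
        exact Pi.single_zero _
      rw [h2, hs0]
      simp only [YM.tr_zero]
    rw [← h3] at h0 h1
    refine ⟨h0, fun t ht htl => ?_⟩
    obtain ⟨k', hk'⟩ := ht
    obtain ⟨k, hk⟩ : ∃ k, k = k' + 1 := ⟨_, rfl⟩
    have hkt : t = 2 * k - 1 := by omega
    have h4 := h1 k (by omega) (by omega)
    rw [← hkt, ← h2] at h4
    refine le_trans (mul_le_mul_of_nonneg_right (Real.exp_le_exp.2 (neg_le_neg ?_))
      (hc1.le.trans h0)) h4
    have h3 : (k : ℝ) ≤ t := by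
      have : k ≤ t := by omega
      exact_mod_cast this
    have h4 : 0 ≤ C4 / q := by positivity
    have h5 : (0 : ℝ) ≤ t := Nat.cast_nonneg t
    calc C4 / q * k ≤ C4 / q * t := mul_le_mul_of_nonneg_left h3 h4
      _ ≤ (20 * (e + 3) + 1) * C5 * (Real.log β ^ 5 / β) ^ κ * t := by
          refine mul_le_mul_of_nonneg_right (hq5.trans ?_) h5
          have h6 : 0 ≤ C5 * (Real.log β ^ 5 / β) ^ κ := by positivity
          have h7 : (1 : ℝ) ≤ 20 * (e + 3) + 1 := by linarith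
          calc C5 * (Real.log β ^ 5 / β) ^ κ = 1 * (C5 * (Real.log β ^ 5 / β) ^ κ) :=
                (one_mul _).symm
            _ ≤ (20 * (e + 3) + 1) * (C5 * (Real.log β ^ 5 / β) ^ κ) :=
                mul_le_mul_of_nonneg_right h7 h6
            _ = _ := by ring

end bridge

theorem main {N n D : ℕ} (G : Subgroup (UU N)) (hG : IsClosed (G : Set (UU N)))
    [MeasurableSpace G] [BorelSpace G] (μ : Measure G) [IsProbabilityMeasure μ] [μ.IsHaarMeasure]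
    (B : LieBasis G n) (hn : 1 ≤ n) (hD : 2 ≤ D) :
    ∃ C c β₀ : ℝ, 0 < C ∧ 0 < c ∧ 3 ≤ β₀ ∧ ∀ β : ℝ, β₀ ≤ β →
      (∃ (R : ℕ) (F : (LinkZ (D + 1) → G) → ℝ),
        (R : ℝ) ≤ C * (β / Real.log β ^ 5) ^ (1 / (D : ℝ)) ∧
        IsLocal R F ∧ AtTimeZero F ∧
        (∀ (l : ℕ) [NeZero l], Even l → R < l → c ≤ corr l μ β F 0 ∧ ∀ t : ℕ, Odd t → t < l →
          Real.exp (-(C * (Real.log β ^ 5 / β) ^ (1 / (D : ℝ)) * t)) * corr l μ β F 0 ≤
            corr l μ β F t) ∧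
        ∀ ν : Measure (LinkZ (D + 1) → G), IsInfVol μ β ν → c ≤ corrZ ν F 0 ∧
          ∀ t : ℕ, Odd t →
            Real.exp (-(C * (Real.log β ^ 5 / β) ^ (1 / (D : ℝ)) * t)) * corrZ ν F 0 ≤
              corrZ ν F t) ∧
      (∀ M : ℝ, Clusters D μ β M → M ≤ C * (Real.log β ^ 5 / β) ^ (1 / (D : ℝ))) ∧
      (∀ ν : Measure (LinkZ (D + 1) → G), IsInfVol μ β ν → ∀ M : ℝ, ClustersZ ν M →
        M ≤ C * (Real.log β ^ 5 / β) ^ (1 / (D : ℝ))) ∧
      ∃ ν : Measure (LinkZ (D + 1) → G), IsInfVol μ β ν := by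
  have : CompactSpace G := by
    have h1 : IsCompact (G : Set (UU N)) := hG.isCompact
    exact isCompact_iff_compactSpace.1 h1
  have h00 : SecondCountableTopology (UU N) := TopologicalSpace.Subtype.secondCountableTopology _
  have : SecondCountableTopology G := TopologicalSpace.Subtype.secondCountableTopology _
  obtain ⟨e, rfl⟩ : ∃ e, D = e + 2 := ⟨D - 2, by omega⟩
  have hN : 1 ≤ N := by
    rcases Nat.eq_zero_or_pos N with h | h
    · subst h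
      have h1 := B.orth ⟨0, hn⟩ ⟨0, hn⟩
      rw [if_pos rfl] at h1
      have h2 : trace ((B.X ⟨0, hn⟩)ᴴ * B.X ⟨0, hn⟩) = 0 := by
        unfold Matrix.trace
        exact Finset.sum_empty
      rw [h2] at h1
      norm_num at h1
    · exact h
  obtain ⟨C, c, β₀, hC, hc, hβ₀, hmain⟩ := finite_part μ B hG hn hN e
  refine ⟨C, c, β₀, hC, hc, hβ₀, fun β hβ => ?_⟩
  obtain ⟨R, F, hR, hF, hF0, hcorr⟩ := hmain β hβ
  obtain ⟨A, hA⟩ : ∃ A : ℝ, A = C * (Real.log β ^ 5 / β) ^ (1 / ((e + 2 : ℕ) : ℝ)) := ⟨_, rfl⟩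
  rw [← hA] at hcorr ⊢
  have hcorr' : ∀ (l : ℕ) [NeZero l], Even l → R < l → ∀ t : ℕ, Odd t → t < l →
      c * Real.exp (-(A * t)) ≤ corr l μ β F t := by
    intro l _ hl hRl t ht htl
    obtain ⟨h1, h2⟩ := hcorr l hl hRl
    rw [mul_comm]
    exact (mul_le_mul_of_nonneg_left h1 (Real.exp_pos _).le).trans (h2 t ht htl)
  have hinf : ∀ ν : Measure (LinkZ (e + 2 + 1) → G), IsInfVol μ β ν → c ≤ corrZ ν F 0 ∧
      ∀ t : ℕ, Odd t → Real.exp (-(A * t)) * corrZ ν F 0 ≤ corrZ ν F t := by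
    intro ν hν
    obtain ⟨φ, hφ, hlim⟩ := hν.lim
    have h1 : ∀ t, Tendsto (fun j => corr (2 * (φ j + 1)) μ β F t) atTop (𝓝 (corrZ ν F t)) :=
      fun t => (hlim _ _ (local_mul hF t)).sub
        ((hlim _ _ hF).mul (hlim _ _ (local_shift hF t)))
    refine ⟨ge_of_tendsto (h1 0) ?_, fun t ht =>
      le_of_tendsto_of_tendsto ((h1 0).const_mul _) (h1 t) ?_⟩
    · filter_upwards [hφ.eventually_ge_atTop R] with j hj
      exact (hcorr (2 * (φ j + 1)) (even_two_mul _) (by omega)).1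
    · filter_upwards [hφ.eventually_ge_atTop (R + t)] with j hj
      exact (hcorr (2 * (φ j + 1)) (even_two_mul _) (by omega)).2 t ht (by omega)
  refine ⟨⟨R, F, hR, hF, hF0, hcorr, hinf⟩, fun M hM => ?_, fun ν hν M hM => ?_,
    exists_infVol μ B β⟩
  · obtain ⟨K, l₀, hK⟩ := hM R F hF hF0
    refine rate (K := K) hc fun t ht => ?_
    obtain ⟨l, hl⟩ : ∃ l, l = 2 * (l₀ + R + t + 1) := ⟨_, rfl⟩
    haveI : NeZero l := ⟨by omega⟩
    have h1 : Even l := by rw [hl]; exact even_two_mul _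
    exact (hcorr' l h1 (by omega) t ht (by omega)).trans
      ((le_abs_self _).trans (hK l h1 (by omega) t (by omega)))
  · obtain ⟨K, hK⟩ := hM R F hF hF0
    obtain ⟨h1, h2⟩ := hinf ν hν
    refine rate (K := K) hc fun t ht => ?_
    rw [mul_comm]
    exact ((mul_le_mul_of_nonneg_left h1 (Real.exp_pos _).le).trans (h2 t ht)).trans
      ((le_abs_self _).trans (hK t))


end

end Pool.Agent.Q206.YM.Wilson
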